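import Pool.Agent.TH82.FG.Step

set_option autoImplicit false
set_option linter.unusedSectionVars false

/-! The two steps, from the geometric statements. -/

namespace Pool.Agent.TH82.FG

open Pool.Agent.TH68 Pool.Agent.Helper97.Hyp

/-- the geometric input of the first step -/
def GeomI : Prop := ∀ {Q : Type} [Group Q] {ψ : FF →* Q} {P : Subgroup GG} {W : WNorm Q} {δ : ℝ}
    (_h : St ψ P W δ) {g : FF} (_hg : ∀ x y : GG, ψ (al x * be y) ≠ ψ g) (l₀ : ℝ),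
    ∃ (𝒜 : Type) (_ : MulAction Q 𝒜) (Z : Sys Q W 𝒜) (R : Spq Z) (x : GG) (c : ℝ),
      l₀ ≤ Z.θ ∧ 10000 * Z.θ ≤ R.M ∧
      R.N = Subgroup.normalClosure {ψ (al x * be (x⁻¹ * ph g) * g⁻¹)} ∧
      1000 * Z.θ ≤ c ∧ 100 * c ≤ W.ℓ (ψ (al x)) ∧
      Cells Z R (ψ.comp al).range (ψ.comp be).range (ψ (al x)) (ψ g)
        (ψ (al x * be (x⁻¹ * ph g) * g⁻¹)) c ∧
      ∀ (S : 𝒜) (y : Q) (f f' : GG),
        pd (Z.S S) (pt W (y * ψ (io f))) (pt W (y * ψ (io f'))) ≤ Z.θ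

/-- the geometric input of the second step -/
def GeomII : Prop := ∀ {Q : Type} [Group Q] {ψ : FF →* Q} {P : Subgroup GG} {W : WNorm Q} {δ : ℝ}
    (_h : St ψ P W δ) {x y s : GG} (_hxy : ψ (al (x * y * x⁻¹ * y⁻¹)) ≠ 1) (l₀ : ℝ),
    ∃ (𝒜 : Type) (_ : MulAction Q 𝒜) (Z : Sys Q W 𝒜) (R : Spq Z) (v : GG),
      v ∈ Subgroup.closure ({x, y} : Set GG) ∧ l₀ ≤ Z.θ ∧ 10000 * Z.θ ≤ R.M ∧
      R.N = Subgroup.normalClosure {ψ (al (v * s⁻¹)), ψ (be (v * s⁻¹))} ∧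
      (∀ S : 𝒜, (∀ (z : Q), ∀ a ∈ (ψ.comp al).range, ∀ a' ∈ (ψ.comp al).range,
          pd (Z.S S) (pt W (z * a)) (pt W (z * a')) ≤ Z.θ) ∨
        (∀ (z : Q), ∀ a ∈ (ψ.comp be).range, ∀ a' ∈ (ψ.comp be).range,
          pd (Z.S S) (pt W (z * a)) (pt W (z * a')) ≤ Z.θ)) ∧
      ∀ (S : 𝒜) (z : Q) (f f' : GG),
        pd (Z.S S) (pt W (z * ψ (io f))) (pt W (z * ψ (io f'))) ≤ Z.θ

/-- separation in the first step -/
def SepI : Prop := ∀ {Γ : Type} [Group Γ] {W : WNorm Γ} {𝒜 : Type} [MulAction Γ 𝒜]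
    (Y : Sys Γ W 𝒜) (R : Spq Y) (_hM : 10000 * Y.θ ≤ R.M) {A B : Subgroup Γ}
    (_hA : Geo W A) (_hB : Geo W B) (_gA : NGeo W R.N A) (_gB : NGeo W R.N B)
    (_htf : ∀ (u : Γ) (k : ℕ), 0 < k → u ^ k ∈ R.N → u ∈ R.N)
    (_ss : SSm (⊥ : Subgroup Γ) A B)
    {w g₀ r : Γ} (_hw : w ∈ A) (_hr : w⁻¹ * r * g₀ ∈ B) (_hrN : r ∈ R.N)
    (_hg₀ : ∀ a ∈ A, ∀ b ∈ B, a * b ≠ g₀) {c : ℝ} (_hc : 1000 * Y.θ ≤ c)
    (_hwc : 100 * c ≤ W.ℓ w) (_hcell : Cells Y R A B w g₀ r c),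
    SSm R.N A B

/-- a bound for the lengths of finitely many elements -/
lemma exists_bound {Q : Type} [Group Q] (W : WNorm Q) (ψ : FF →* Q) (T : Finset FF) :
    ∃ l₀ : ℝ, 4 ≤ l₀ ∧ ∀ t ∈ T, (W.ℓ (ψ t) : ℝ) ≤ l₀ := by
  classical
  refine ⟨4 + ∑ t ∈ T, (W.ℓ (ψ t) : ℝ), ?_, fun t ht => ?_⟩
  · have : 0 ≤ ∑ t ∈ T, (W.ℓ (ψ t) : ℝ) := Finset.sum_nonneg fun _ _ => Nat.cast_nonneg _
    linarith
  · have := Finset.single_le_sum (f := fun t => (W.ℓ (ψ t) : ℝ))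
      (fun _ _ => Nat.cast_nonneg _) ht
    linarith

theorem stepI (G1 : GeomI) (S1 : SepI) : StepI := by
  intro R₀ hR₀ g T
  obtain ⟨Q, hQ, ψ, P, W, δ, h, rfl⟩ := hR₀
  by_cases hg : ∃ x y : GG, ψ (al x * be y) = ψ g
  · obtain ⟨x, y, hxy⟩ := hg
    refine ⟨ψ.ker, ⟨Q, hQ, ψ, P, W, δ, h, rfl⟩, le_rfl, ?_, x, y, ?_⟩
    · intro t _ htR
      refine ⟨htR, fun g hg => ⟨g, ?_, hg⟩⟩
      rw [inv_mul_cancel]; exact one_mem _
    · rw [MonoidHom.mem_ker, map_mul, map_inv, hxy, mul_inv_cancel]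
  push Not at hg
  obtain ⟨l₀, hl4, hl₀⟩ := exists_bound W ψ T
  obtain ⟨𝒜, _, Z, R, x, c, e1, e2, e3, e4, e5, e6, e7⟩ := G1 h hg l₀
  have hθ := Z.hθ
  have hδ := Z.hδ
  have hN := R.normal
  have hP := h.norm
  obtain ⟨r, hr⟩ : ∃ r : FF, r = al x * be (x⁻¹ * ph g) * g⁻¹ := ⟨_, rfl⟩
  rw [← hr] at e3 e6
  have hphr : ph r = 1 := by
    rw [hr, map_mul, map_mul, ph_al, ph_be, map_inv]; group
  have hrN : ψ r ∈ R.N := by
    rw [e3]; exact Subgroup.subset_normalClosure (Set.mem_singleton _)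
  have h1 : ∀ x ∈ P, ψ (al x) ∈ R.N ∧ ψ (be x) ∈ R.N := by
    intro x hx
    rw [h.pa x hx, h.pb x hx]
    exact ⟨R.N.one_mem, R.N.one_mem⟩
  have h2 : ∀ w, ψ w ∈ R.N → ph w ∈ P := by
    intro w hw
    rw [e3, ← Set.image_singleton] at hw
    refine ph_of_closure h le_rfl ?_ hw
    rintro v rfl
    rw [hphr]; exact P.one_mem
  have htf : ∀ (u : Q) (k : ℕ), 0 < k → u ^ k ∈ R.N → u ∈ R.N := fun u k hk hu =>
    tfree Z R (by linarith) h.tf u k hk hu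
  have hss : SSm R.N (ψ.comp al).range (ψ.comp be).range := by
    refine S1 Z R e2 h.geoA h.geoB (h.ngeoA (fun x hx => (h1 x hx).1) h2)
      (h.ngeoB (fun x hx => (h1 x hx).2) h2) htf h.ssm ⟨x, rfl⟩ ?_ hrN ?_ e4 e5 e6
    · refine ⟨x⁻¹ * ph g, ?_⟩
      change ψ (be (x⁻¹ * ph g)) = (ψ (al x))⁻¹ * ψ r * ψ g
      rw [hr, map_mul ψ, map_mul ψ (al x), map_inv ψ]
      group
    · rintro _ ⟨a, rfl⟩ _ ⟨b, rfl⟩ hc
      apply hg a b
      rw [map_mul]; exact hc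
  obtain ⟨hgood, hcen⟩ := step_core h T Z R e2 (hl4.trans e1) (fun t ht => (hl₀ t ht).trans e1)
    h.norm h1 h2 hss e7
  refine ⟨_, hgood, ?_, hcen, x, x⁻¹ * ph g, ?_⟩
  · intro w hw
    rw [MonoidHom.mem_ker] at hw ⊢
    rw [MonoidHom.comp_apply, hw, map_one]
  · rw [← hr, MonoidHom.mem_ker, MonoidHom.comp_apply, QuotientGroup.mk'_apply,
      QuotientGroup.eq_one_iff]
    exact hrN

theorem stepII (G2 : GeomII) : StepII := by
  intro R₀ hR₀ x y s hxy T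
  obtain ⟨Q, hQ, ψ, P, W, δ, h, rfl⟩ := hR₀
  obtain ⟨l₀, hl4, hl₀⟩ := exists_bound W ψ T
  obtain ⟨𝒜, _, Z, R, v, hv, e1, e2, e3, e4, e5⟩ := G2 h (s := s) hxy l₀
  have hθ := Z.hθ
  have hδ := Z.hδ
  have hN := R.normal
  obtain ⟨r, hr⟩ : ∃ r : GG, r = v * s⁻¹ := ⟨_, rfl⟩
  rw [← hr] at e3
  obtain ⟨P', hP'd⟩ : ∃ P' : Subgroup GG, P' = Subgroup.normalClosure ((P : Set GG) ∪ {r}) :=
    ⟨_, rfl⟩
  have hP' : P'.Normal := by rw [hP'd]; exact Subgroup.normalClosure_normal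
  have hPP' : P ≤ P' := by
    intro x hx
    rw [hP'd]
    exact Subgroup.subset_normalClosure (Or.inl hx)
  have hrP' : r ∈ P' := by
    rw [hP'd]
    exact Subgroup.subset_normalClosure (Or.inr rfl)
  have hra : ψ (al r) ∈ R.N := by
    rw [e3]; exact Subgroup.subset_normalClosure (Or.inl rfl)
  have hrb : ψ (be r) ∈ R.N := by
    rw [e3]; exact Subgroup.subset_normalClosure (Or.inr rfl)
  have h1 : ∀ x ∈ P', ψ (al x) ∈ R.N ∧ ψ (be x) ∈ R.N := by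
    have k1 : P' ≤ (R.N.comap (ψ.comp al)) ⊓ (R.N.comap (ψ.comp be)) := by
      have n1 : (R.N.comap (ψ.comp al)).Normal := hN.comap _
      have n2 : (R.N.comap (ψ.comp be)).Normal := hN.comap _
      rw [hP'd]
      apply Subgroup.normalClosure_le_normal
      rintro z (hz | hz)
      · refine ⟨?_, ?_⟩
        · change ψ (al z) ∈ R.N
          rw [h.pa z hz]; exact R.N.one_mem
        · change ψ (be z) ∈ R.N
          rw [h.pb z hz]; exact R.N.one_mem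
      · rw [Set.mem_singleton_iff] at hz
        rw [hz]
        exact ⟨hra, hrb⟩
    intro z hz
    exact ⟨(k1 hz).1, (k1 hz).2⟩
  have h2 : ∀ w, ψ w ∈ R.N → ph w ∈ P' := by
    intro w hw
    have e6 : ({ψ (al r), ψ (be r)} : Set Q) = ψ '' {al r, be r} := by
      rw [Set.image_pair]
    rw [e3, e6] at hw
    refine ph_of_closure h hPP' ?_ hw
    rintro z (hz | hz)
    · rw [hz, ph_al]; exact hrP'
    · rw [Set.mem_singleton_iff] at hz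
      rw [hz, ph_be]; exact hrP'
  have htf : ∀ (u : Q) (k : ℕ), 0 < k → u ^ k ∈ R.N → u ∈ R.N := fun u k hk hu =>
    tfree Z R (by linarith) h.tf u k hk hu
  have gA := h.ngeoA (fun x hx => (h1 x hx).1) h2
  have gB := h.ngeoB (fun x hx => (h1 x hx).2) h2
  have hss : SSm R.N (ψ.comp al).range (ψ.comp be).range :=
    ss_ii_of Z R e2 gA gB h.ssm
      (fun hx hz hxN hxz hmin => short_h Z R (by linarith) h.geoA h.geoB gA gB htf h.ssm hx hz hxN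
        hxz hmin) e4
  obtain ⟨hgood, hcen⟩ := step_core h T Z R e2 (hl4.trans e1) (fun t ht => (hl₀ t ht).trans e1)
    hP' h1 h2 hss e5
  refine ⟨_, hgood, ?_, hcen, v, hv, ?_, ?_⟩
  · intro w hw
    rw [MonoidHom.mem_ker] at hw ⊢
    rw [MonoidHom.comp_apply, hw, map_one]
  · rw [← hr, MonoidHom.mem_ker, MonoidHom.comp_apply, QuotientGroup.mk'_apply,
      QuotientGroup.eq_one_iff]
    exact hra
  · rw [← hr, MonoidHom.mem_ker, MonoidHom.comp_apply, QuotientGroup.mk'_apply,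
      QuotientGroup.eq_one_iff]
    exact hrb

/-- the limit group -/
theorem exists_lim (G1 : GeomI) (G2 : GeomII) (S1 : SepI) : ∃ R : Subgroup FF, Lim R :=
  limit (stepI G1 S1) (stepII G2) base

end Pool.Agent.TH82.FG
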