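import Pool.Agent.TH82.FG.Defs

set_option autoImplicit false
set_option linter.unusedSectionVars false

/-! The state of the construction. -/

namespace Pool.Agent.TH82.FG

open Pool.Agent.TH68 Pool.Agent.Helper97.Hyp

/-- the big free group, on `a₀ a₁ b₀ b₁ f₀ f₁` -/
abbrev FF : Type := FreeGroup (Fin 6)

/-- the small free group -/
abbrev GG : Type := FreeGroup (Fin 2)

/-- the first copy -/
def al : GG →* FF := FreeGroup.lift ![FreeGroup.of 0, FreeGroup.of 1]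

/-- the second copy -/
def be : GG →* FF := FreeGroup.lift ![FreeGroup.of 2, FreeGroup.of 3]

/-- the third copy -/
def io : GG →* FF := FreeGroup.lift ![FreeGroup.of 4, FreeGroup.of 5]

/-- the retraction -/
def ph : FF →* GG :=
  FreeGroup.lift ![FreeGroup.of 0, FreeGroup.of 1, FreeGroup.of 0, FreeGroup.of 1, 1, 1]

/-- the state: a quotient `Q` of the big free group with its word norm `W`, and the normal
subgroup `P` of the small one -/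
structure St {Q : Type} [Group Q] (ψ : FF →* Q) (P : Subgroup GG) (W : WNorm Q) (δ : ℝ) :
    Prop where
  surj : Function.Surjective ψ
  le : ∀ w : FF, W.ℓ (ψ w) ≤ w.norm
  ex : ∀ q : Q, ∃ w : FF, ψ w = q ∧ w.norm = W.ℓ q
  norm : P.Normal
  pa : ∀ x ∈ P, ψ (al x) = 1
  pb : ∀ x ∈ P, ψ (be x) = 1
  pp : ∀ w : FF, ψ w = 1 → ph w ∈ P
  /-- no conjugation between the two factors -/
  ss : ∀ (h : Q) (x y : GG), h * ψ (be y) * h⁻¹ = ψ (al x) → x ∈ P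
  /-- the third copy is isometrically embedded -/
  fi : ∀ x : GG, W.ℓ (ψ (io x)) = x.norm
  hδ : 1 ≤ δ
  hyp : GHyp (Pt W) δ
  tf : ∀ g : Q, IsOfFinOrder g → g = 1
  nc : (FreeGroup.of 0 * FreeGroup.of 1 * (FreeGroup.of 0)⁻¹ * (FreeGroup.of 1)⁻¹ : GG) ∉ P

/-- subgroups with shortest representatives modulo `N` -/
def NGeo {Γ : Type*} [Group Γ] (W : WNorm Γ) (N C : Subgroup Γ) : Prop :=
  ∀ a ∈ C, ∃ a' ∈ C, a⁻¹ * a' ∈ N ∧ ∀ n ∈ N, W.ℓ a' ≤ W.ℓ (a' * n)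

/-- no element of `A` outside `N` is conjugate modulo `N` to an element of `B` -/
def SSm {Γ : Type*} [Group Γ] (N A B : Subgroup Γ) : Prop :=
  ∀ a ∈ A, ∀ b ∈ B, ∀ h : Γ, a⁻¹ * (h * b * h⁻¹) ∈ N → a ∈ N

section cells

variable {Γ : Type*} [Group Γ] {W : WNorm Γ} {𝒜 : Type*} [MulAction Γ 𝒜]

/-- what we need to know about the cells of a strip between `A` and `y * B` -/
def Cells (Y : Sys Γ W 𝒜) (R : Spq Y) (A B : Subgroup Γ) (w g₀ r : Γ) (c : ℝ) : Prop :=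
  ∀ a₀ ∈ A, ∀ a₁ ∈ A, ∀ (y : Γ), ∀ b₁ ∈ B, ∀ b₀ ∈ B, ∀ (S : 𝒜), ∀ ρ ∈ R.G S, ρ ≠ 1 →
    ∀ q₁ ∈ Y.S S, ∀ q₂ ∈ Y.S S, dist (ρ • q₁) q₂ ≤ 51 * Y.θ →
    dist (pt W a₁) (pt W (y * b₁)) ≤ 1000 * Y.θ → exc (pt W a₀) (pt W a₁) q₁ ≤ 1000 * Y.θ →
    exc (pt W (y * b₁)) (pt W (y * b₀)) q₂ ≤ 1000 * Y.θ →
    ∃ g ∈ A,
      (ρ = g * r * g⁻¹ ∧ dist q₁ (pt W g) ≤ c ∧ exc q₁ (pt W a₁) (pt W (g * w)) ≤ c ∧
        exc (pt W (y * b₁)) q₂ (pt W (g * w)) ≤ c ∧ y⁻¹ * g * w ∈ B) ∨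
      (ρ = g * r⁻¹ * g⁻¹ ∧ dist q₁ (pt W (g * w)) ≤ c ∧ exc q₁ (pt W a₁) (pt W g) ≤ c ∧
        exc (pt W (y * b₁)) q₂ (pt W g) ≤ c ∧ y⁻¹ * g * g₀ ∈ B)

end cells

/-- kernels of states -/
def Good (R : Subgroup FF) : Prop :=
  ∃ (Q : Type) (_ : Group Q) (ψ : FF →* Q) (P : Subgroup GG) (W : WNorm Q) (δ : ℝ),
    St ψ P W δ ∧ ψ.ker = R

/-- centralizers of the elements of `T` do not grow -/
def Cen (T : Finset FF) (R R' : Subgroup FF) : Prop :=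
  ∀ t ∈ T, t ∉ R → t ∉ R' ∧ ∀ h : FF, h * t * h⁻¹ * t⁻¹ ∈ R' →
    ∃ h' : FF, h'⁻¹ * h ∈ R' ∧ h' * t * h'⁻¹ * t⁻¹ ∈ R

/-- the first step -/
def StepI : Prop := ∀ R : Subgroup FF, Good R → ∀ g : FF, ∀ T : Finset FF,
  ∃ R' : Subgroup FF, Good R' ∧ R ≤ R' ∧ Cen T R R' ∧ ∃ x y : GG, al x * be y * g⁻¹ ∈ R'

/-- the second step -/
def StepII : Prop := ∀ R : Subgroup FF, Good R → ∀ x y s : GG, al (x * y * x⁻¹ * y⁻¹) ∉ R →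
  ∀ T : Finset FF, ∃ R' : Subgroup FF, Good R' ∧ R ≤ R' ∧ Cen T R R' ∧
    ∃ v ∈ Subgroup.closure ({x, y} : Set GG), al (v * s⁻¹) ∈ R' ∧ be (v * s⁻¹) ∈ R'

/-- the limit group -/
structure Lim (R : Subgroup FF) : Prop where
  norm : R.Normal
  fac : ∀ g : FF, ∃ x y : GG, al x * be y * g⁻¹ ∈ R
  genA : ∀ x y s : GG, al (x * y * x⁻¹ * y⁻¹) ∉ R →
    ∃ v ∈ Subgroup.closure ({x, y} : Set GG), al (v * s⁻¹) ∈ R
  genB : ∀ x y s : GG, be (x * y * x⁻¹ * y⁻¹) ∉ R →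
    ∃ v ∈ Subgroup.closure ({x, y} : Set GG), be (v * s⁻¹) ∈ R
  free : ∀ x : GG, io x ∈ R → x = 1
  cen : ∀ t : FF, t ∉ R → ∃ z : FF, ∀ h : FF, h * t * h⁻¹ * t⁻¹ ∈ R → ∃ k : ℤ, h⁻¹ * z ^ k ∈ R

end Pool.Agent.TH82.FG
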