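import Pool.Agent.TH82.FG.T1
import Pool.Agent.TH82.FG.State

set_option autoImplicit false
set_option linter.unusedSectionVars false

/-! Shortest representatives modulo the killed subgroup, and crossings of strips. -/

namespace Pool.Agent.TH82.FG

open Pool.Agent.TH68 Pool.Agent.Helper97.Hyp

section sp

variable {Γ : Type*} [Group Γ] {W : WNorm Γ} {𝒜 : Type*} [MulAction Γ 𝒜]

/-- pairs with small projections are shortest modulo `N` -/
theorem short_of_pd (Y : Sys Γ W 𝒜) (R : Spq Y) (hM : 1000 * Y.θ ≤ R.M) {x y : Pt W}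
    (h : ∀ A, pd (Y.S A) x y ≤ R.M / 4) : ∀ n ∈ R.N, dist x y ≤ dist x (n • y) := by
  have hδ := Y.hδ
  have hθ := Y.hθ
  have key : ∀ m : ℕ, ∀ n ∈ R.N, nd x (n • y) = m → dist x y ≤ dist x (n • y) := by
    intro m
    induction m using Nat.strong_induction_on with
    | _ m ih =>
      intro n hn hm
      by_cases hn1 : n = 1
      · rw [hn1, one_smul]
      obtain ⟨A, r, hr, hr1, hpd⟩ := R.wind n hn hn1 y
      have hrA := R.fix A r hr
      obtain ⟨a, ha⟩ := Y.proj A x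
      obtain ⟨b, hb⟩ := Y.proj A y
      obtain ⟨b', hb'⟩ := Y.proj A (n • y)
      have h1 : IsProj Y.θ (Y.S A) (r • y) (r • b) := IsProj.fix Y hrA hb
      have h2 := le_pd_of_proj h1 hb'
      have h3 := R.spin A r hr hr1 b hb.1
      have h4 := le_pd_of_proj ha hb
      have h5 := h A
      have h6 := dist_triangle4 b a b' (r • b)
      rw [dist_comm b a, dist_comm b' (r • b)] at h6
      have h7 := far_of_proj Y.hyp ha hb' (by linarith)
      have hrA' : r⁻¹ • A = A := by rw [inv_smul_eq_iff, hrA]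
      have h9 : dist x ((r⁻¹ * n) • y) ≤ dist x a + dist a b + dist (r • b) b' + dist (n • y) b' := by
        have e1 := dist_triangle4 x a b (r⁻¹ • b')
        have e2 := dist_triangle x (r⁻¹ • b') (r⁻¹ • n • y)
        rw [dist_smul, dist_comm b' (n • y)] at e2
        have e3 : dist b (r⁻¹ • b') = dist (r • b) b' := by
          rw [← dist_smul r b, smul_inv_smul]
        rw [mul_smul]
        linarith
      have h10 : dist x ((r⁻¹ * n) • y) < dist x (n • y) := by linarith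
      have h11 : nd x ((r⁻¹ * n) • y) < m := by
        rw [← hm]
        rw [dist_eq_nd, dist_eq_nd] at h10
        exact_mod_cast h10
      have := ih _ h11 _ (R.N.mul_mem (R.N.inv_mem (R.G_le A hr)) hn) rfl
      linarith
  intro n hn
  exact key _ n hn rfl

/-- a main crossing of a thin strip -/
theorem strip (Y : Sys Γ W 𝒜) (R : Spq Y) (hM : 4000 * Y.θ ≤ R.M) {p₀ p₁ z₁ z₀ : Pt W} {n : Γ}
    (hn : n ∈ R.N) (hn1 : n ≠ 1) (hX : Red R.N p₀ p₁) (hZ : Red R.N z₁ z₀)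
    (hJ : dist p₁ z₁ ≤ 300 * Y.θ) (hJ' : dist z₀ (n • p₀) ≤ 100 * Y.θ) :
    ∃ S, ∃ r ∈ R.G S, r ≠ 1 ∧ ∃ q₁ ∈ Y.S S, ∃ q₂ ∈ Y.S S, dist (r • q₁) q₂ ≤ 51 * Y.θ ∧
      R.M - 51 * Y.θ ≤ dist q₁ q₂ ∧ exc p₀ p₁ q₁ ≤ 16 * Y.θ ∧
        (exc z₁ z₀ q₂ ≤ 16 * Y.θ ∨ dist q₂ z₀ ≤ 116 * Y.θ) := by
  have hδ := Y.hδ
  have hθ := Y.hθ
  let v : ℕ → Pt W := fun i => match i with
    | 0 => p₀
    | 1 => p₁
    | 2 => z₁
    | 3 => z₀
    | _ => n • p₀
  obtain ⟨S, r, hr, hr1, q₁, hq₁, q₂, hq₂, hd, hfar, a, b, hab, hb, h₁, h₂⟩ :=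
    poly Y R (by linarith) hn hn1 v 4 (by norm_num) (by norm_num) rfl
  have hrN : r ∈ R.N := R.G_le S hr
  have excl : ∀ p q : Pt W, Red R.N p q → exc p q q₁ ≤ 632 * Y.θ → exc p q q₂ ≤ 632 * Y.θ →
      False := by
    intro p q hpq h1 h2
    have := hpq.bound Y.hyp hrN h1 h2 hd
    linarith
  refine ⟨S, r, hr, hr1, q₁, hq₁, q₂, hq₂, hd, hfar, ?_⟩
  have hh : ∀ {s t : Pt W} {J : ℝ} {q : Pt W}, exc s t q ≤ 16 * Y.θ → dist s t ≤ J →
      dist q s ≤ J + 16 * Y.θ ∧ dist q t ≤ J + 16 * Y.θ := fun h hJ => jump_near h hJ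
  interval_cases b
  · interval_cases a
    exact (excl p₀ p₁ hX (h₁.trans (by linarith)) (h₂.trans (by linarith))).elim
  · have h₂' : exc p₁ z₁ q₂ ≤ 16 * Y.θ := h₂
    have h3 := hh h₂' hJ
    exfalso
    interval_cases a
    · refine excl p₀ p₁ hX (h₁.trans (by linarith)) ?_
      have := exc_le_two' p₀ p₁ q₂
      linarith [h3.1]
    · have h₁' : exc p₁ z₁ q₁ ≤ 16 * Y.θ := h₁
      have h4 := hh h₁' hJ
      have := dist_triangle q₁ p₁ q₂
      rw [dist_comm p₁ q₂] at this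
      linarith [h3.1, h4.1]
  · have h₂' : exc z₁ z₀ q₂ ≤ 16 * Y.θ := h₂
    interval_cases a
    · exact ⟨h₁, Or.inl h₂'⟩
    · exfalso
      have h₁' : exc p₁ z₁ q₁ ≤ 16 * Y.θ := h₁
      have h4 := hh h₁' hJ
      refine excl z₁ z₀ hZ ?_ (h₂'.trans (by linarith))
      have := exc_le_two z₁ z₀ q₁
      rw [dist_comm z₁ q₁] at this
      linarith [h4.2]
    · exfalso
      exact excl z₁ z₀ hZ (h₁.trans (by linarith)) (h₂'.trans (by linarith))
  · have h₂' : exc z₀ (n • p₀) q₂ ≤ 16 * Y.θ := h₂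
    have h3 := hh h₂' hJ'
    have h5 : exc z₁ z₀ q₂ ≤ 632 * Y.θ := by
      have := exc_le_two' z₁ z₀ q₂
      linarith [h3.1]
    interval_cases a
    · exact ⟨h₁, Or.inr (by linarith [h3.1])⟩
    · exfalso
      have h₁' : exc p₁ z₁ q₁ ≤ 16 * Y.θ := h₁
      have h4 := hh h₁' hJ
      refine excl z₁ z₀ hZ ?_ h5
      have := exc_le_two z₁ z₀ q₁
      rw [dist_comm z₁ q₁] at this
      linarith [h4.2]
    · exfalso
      exact excl z₁ z₀ hZ (h₁.trans (by linarith)) h5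
    · exfalso
      have h₁' : exc z₀ (n • p₀) q₁ ≤ 16 * Y.θ := h₁
      have h4 := hh h₁' hJ'
      have := dist_triangle q₁ z₀ q₂
      rw [dist_comm z₀ q₂] at this
      linarith [h3.1, h4.1]

end sp

end Pool.Agent.TH82.FG
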