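import Pool.Agent.TH82.FG.Steps
import Pool.Agent.TH82.FG.Sh
import Pool.Agent.TH98.FG.SI
import Pool.Agent.TH18.FG.Ov

set_option autoImplicit false

/-! Separation in the first step: assembly. -/

namespace Pool.Agent.TH82.FG

open Pool.Agent.TH68 Pool.Agent.Helper97.Hyp

theorem sepI : SepI := by
  intro Γ _ W 𝒜 _ Y R hM A B hA hB gA gB htf ss w g₀ r hw hr hrN hg0 c hc hwc hcell
  exact ss_i_of Y R hM hA hB gA gB htf ss
    (fun hx hz hxN hxz hmin => short_h Y R (by have := Y.hθ; have := Y.hδ; linarith) hA hB gA gB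
      htf ss hx hz hxN hxz hmin) (overlap Y.hyp hA hB ss) hw hr hg0 hc hwc hcell

end Pool.Agent.TH82.FG
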