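import Pool.Agent.TH82.FG.State

/-!
# FG-FIN (job 2361, helper230 for helper82): from the limit to the two final theorems
-/

set_option autoImplicit false

namespace Pool.Agent.TH82.FG

open Pool.Agent.TH68 Pool.Agent.Helper97.Hyp

namespace FinJob

/-- subgroups of the image of a factor need at most two generators -/
theorem two_gen {R : Subgroup FF} [R.Normal] (κ : GG →* FF)
    (hgen : ∀ x y s : GG, κ (x * y * x⁻¹ * y⁻¹) ∉ R →
      ∃ v ∈ Subgroup.closure ({x, y} : Set GG), κ (v * s⁻¹) ∈ R)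
    (hcen : ∀ t : FF, t ∉ R → ∃ z : FF, ∀ h : FF, h * t * h⁻¹ * t⁻¹ ∈ R → ∃ k : ℤ, h⁻¹ * z ^ k ∈ R)
    (H : Subgroup (FF ⧸ R)) (hH : H ≤ ((QuotientGroup.mk' R).comp κ).range) :
    ∃ s : Finset (FF ⧸ R), s.card ≤ 2 ∧ Subgroup.closure (s : Set (FF ⧸ R)) = H := by
  classical
  by_cases hc : ∀ g ∈ H, ∀ h ∈ H, g * h = h * g
  · by_cases hb : H = ⊥
    · refine ⟨∅, by simp, ?_⟩
      rw [hb]
      simp
    · obtain ⟨⟨t, ht⟩, ht1⟩ := Subgroup.ne_bot_iff_exists_ne_one.1 hb
      have ht2 : t ≠ 1 := fun h => ht1 (Subtype.ext h)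
      obtain ⟨t0, rfl⟩ := QuotientGroup.mk_surjective t
      have ht3 : t0 ∉ R := fun h => ht2 ((QuotientGroup.eq_one_iff _).2 h)
      obtain ⟨z, hz⟩ := hcen t0 ht3
      have hle : H ≤ Subgroup.zpowers ((z : FF ⧸ R)) := by
        intro q hq
        obtain ⟨h, rfl⟩ := QuotientGroup.mk_surjective q
        have h1 := hc _ hq _ ht
        have h2 : h * t0 * h⁻¹ * t0⁻¹ ∈ R := by
          rw [← QuotientGroup.eq_one_iff, QuotientGroup.mk_mul, QuotientGroup.mk_mul,
            QuotientGroup.mk_mul, QuotientGroup.mk_inv, QuotientGroup.mk_inv, h1]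
          group
        obtain ⟨k, hk⟩ := hz h h2
        refine Subgroup.mem_zpowers_iff.2 ⟨k, ?_⟩
        rw [← QuotientGroup.mk_zpow]
        exact (QuotientGroup.eq.2 hk).symm
      have hcy : IsCyclic H := Subgroup.isCyclic_of_le hle
      obtain ⟨w, hw⟩ := (H.isCyclic_iff_exists_zpowers_eq_top).1 hcy
      refine ⟨{w}, by simp, ?_⟩
      rw [Finset.coe_singleton, ← Subgroup.zpowers_eq_closure]
      exact hw
  · push Not at hc
    obtain ⟨g, hg, h, hh, hne⟩ := hc
    obtain ⟨x, hx⟩ := hH hg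
    obtain ⟨y, hy⟩ := hH hh
    refine ⟨{g, h}, Finset.card_le_two, le_antisymm ?_ ?_⟩
    · rw [Subgroup.closure_le]
      intro q hq
      simp only [Finset.coe_insert, Finset.coe_singleton, Set.mem_insert_iff,
        Set.mem_singleton_iff] at hq
      rcases hq with rfl | rfl
      · exact hg
      · exact hh
    · intro q hq
      obtain ⟨s, hs⟩ := hH hq
      have h1 : κ (x * y * x⁻¹ * y⁻¹) ∉ R := by
        intro h2
        apply hne
        have h3 : (QuotientGroup.mk' R).comp κ (x * y * x⁻¹ * y⁻¹) = 1 := by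
          rw [MonoidHom.comp_apply]
          exact (QuotientGroup.eq_one_iff _).2 h2
        rw [map_mul, map_mul, map_mul, map_inv, map_inv, hx, hy] at h3
        have h4 := mul_inv_eq_one.1 h3
        exact mul_inv_eq_iff_eq_mul.1 h4
      obtain ⟨v, hv, hv2⟩ := hgen x y s h1
      have h5 : (QuotientGroup.mk' R).comp κ v = q := by
        rw [← hs]
        have h6 : (QuotientGroup.mk' R).comp κ (v * s⁻¹) = 1 := by
          rw [MonoidHom.comp_apply]
          exact (QuotientGroup.eq_one_iff _).2 hv2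
        rw [map_mul, map_inv] at h6
        exact mul_inv_eq_one.1 h6
      rw [← h5]
      have h7 : (QuotientGroup.mk' R).comp κ v ∈
          (Subgroup.closure ({x, y} : Set GG)).map ((QuotientGroup.mk' R).comp κ) :=
        Subgroup.mem_map_of_mem _ hv
      rw [MonoidHom.map_closure, Set.image_pair, hx, hy] at h7
      simpa using h7

/-- the shift -/
def XX : Equiv.Perm (ℤ × ZMod 2) where
  toFun v := (v.1 + 1, v.2)
  invFun v := (v.1 - 1, v.2)
  left_inv v := by simp
  right_inv v := by simp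

/-- the switch at the origin -/
def YY : Equiv.Perm (ℤ × ZMod 2) where
  toFun v := (v.1, v.2 + if v.1 = 0 then 1 else 0)
  invFun v := (v.1, v.2 - if v.1 = 0 then 1 else 0)
  left_inv v := by simp
  right_inv v := by simp

theorem XX_pow (i : ℕ) (v : ℤ × ZMod 2) : (XX ^ i) v = (v.1 + i, v.2) := by
  induction i generalizing v with
  | zero => simp
  | succ i ih =>
    rw [pow_succ, Equiv.Perm.mul_apply, ih]
    show (v.1 + 1 + (i : ℤ), v.2) = _
    push_cast
    congr 1
    ring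

theorem XX_pow_inv (i : ℕ) (v : ℤ × ZMod 2) : (XX ^ i)⁻¹ v = (v.1 - i, v.2) := by
  rw [Equiv.Perm.inv_eq_iff_eq, XX_pow]
  simp

/-- the representation -/
def pi : GG →* Equiv.Perm (ℤ × ZMod 2) := FreeGroup.lift ![XX, YY]

/-- the elements -/
def cc (i : ℕ) : GG := FreeGroup.of 0 ^ i * FreeGroup.of 1 * (FreeGroup.of 0 ^ i)⁻¹

theorem pi_cc (i : ℕ) (v : ℤ × ZMod 2) :
    pi (cc i) v = (v.1, v.2 + if v.1 = i then 1 else 0) := by
  have h1 : pi (cc i) = XX ^ i * YY * (XX ^ i)⁻¹ := by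
    simp [pi, cc]
  rw [h1, Equiv.Perm.mul_apply, Equiv.Perm.mul_apply, XX_pow_inv, XX_pow]
  show ((v.1 - (i : ℤ)) + i, v.2 + if v.1 - (i : ℤ) = 0 then (1 : ZMod 2) else 0) = _
  simp only [sub_add_cancel, sub_eq_zero]

/-- the permutations which preserve the fibres and act by translations on them -/
def BB : Subgroup (Equiv.Perm (ℤ × ZMod 2)) where
  carrier := {σ | ∃ f : ℤ → ZMod 2, ∀ v, σ v = (v.1, v.2 + f v.1)}
  one_mem' := ⟨fun _ => 0, fun v => by simp⟩
  mul_mem' := by
    rintro σ τ ⟨f, hf⟩ ⟨g, hg⟩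
    refine ⟨fun i => g i + f i, fun v => ?_⟩
    rw [Equiv.Perm.mul_apply, hg, hf]
    simp [add_assoc]
  inv_mem' := by
    rintro σ ⟨f, hf⟩
    refine ⟨fun i => - f i, fun v => ?_⟩
    rw [Equiv.Perm.inv_eq_iff_eq, hf]
    exact Prod.ext rfl (by
      show v.2 = v.2 + -(f v.1) + f v.1
      ring)

/-- the value in the fibre over `i` -/
def ch (i : ℤ) : BB →* Multiplicative (ZMod 2) where
  toFun σ := Multiplicative.ofAdd (σ.1 (i, 0)).2
  map_one' := rfl
  map_mul' := by
    rintro ⟨σ, f, hf⟩ ⟨τ, g, hg⟩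
    show Multiplicative.ofAdd (σ (τ (i, 0))).2 =
      Multiplicative.ofAdd (σ (i, 0)).2 * Multiplicative.ofAdd (τ (i, 0)).2
    rw [hg, hf, hf, ← ofAdd_add]
    congr 1
    show (0 : ZMod 2) + g i + f i = 0 + f i + (0 + g i)
    ring

theorem cc_mem (i : ℕ) : cc i ∈ BB.comap pi :=
  ⟨fun k => if k = i then 1 else 0, fun v => pi_cc i v⟩

section

variable {G : Type} [Group G] (j : GG →* G) (hj : Function.Injective j)

/-- the coordinates on the copy of the subgroup -/
noncomputable def XC (i : ℕ) : ((BB.comap pi).map j) →* Multiplicative (ZMod 2) :=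
  (ch i).comp ((pi.subgroupComap BB).comp
    ((BB.comap pi).equivMapOfInjective j hj).symm.toMonoidHom)

theorem XC_cc (i k : ℕ) :
    XC j hj i ⟨j (cc k), Subgroup.mem_map_of_mem _ (cc_mem k)⟩ =
      Multiplicative.ofAdd (if i = k then 1 else 0) := by
  have h1 : ((BB.comap pi).equivMapOfInjective j hj).symm
      ⟨j (cc k), Subgroup.mem_map_of_mem _ (cc_mem k)⟩ = ⟨cc k, cc_mem k⟩ := by
    rw [MulEquiv.symm_apply_eq]
    rfl
  show Multiplicative.ofAdd ((pi (((BB.comap pi).equivMapOfInjective j hj).symm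
      ⟨j (cc k), Subgroup.mem_map_of_mem _ (cc_mem k)⟩ : BB.comap pi) ((i : ℤ), (0 : ZMod 2))).2) = _
  rw [h1]
  show Multiplicative.ofAdd ((pi (cc k) ((i : ℤ), (0 : ZMod 2))).2) = _
  rw [pi_cc]
  simp

include hj in
/-- the number of generators -/
theorem no_gen (N : ℕ) (H : Subgroup G) (hH : H ≤ (BB.comap pi).map j)
    (hc : ∀ i < N, j (cc i) ∈ H) (s : Finset G) (hs : Subgroup.closure (s : Set G) = H) :
    N ≤ 2 ^ s.card := by
  classical
  have hsH : ∀ a ∈ s, a ∈ H := fun a ha => hs ▸ Subgroup.subset_closure ha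
  set χ : Fin N → (H →* Multiplicative (ZMod 2)) := fun i =>
    (XC j hj i).comp (Subgroup.inclusion hH) with hχ
  have hval : ∀ i k : Fin N, χ i ⟨j (cc k), hc k k.2⟩ =
      Multiplicative.ofAdd (if (i : ℕ) = k then 1 else 0) := fun i k => XC_cc j hj i k
  have hinj : Function.Injective χ := by
    intro i k hik
    by_contra hne
    have h1 := hval i k
    rw [hik, hval k k, if_pos rfl, if_neg (fun h => hne (Fin.ext h))] at h1
    exact absurd (Multiplicative.ofAdd.injective h1) (by decide)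
  have hinj2 : Function.Injective (fun (i : Fin N) (a : s) => χ i ⟨a.1, hsH a.1 a.2⟩) := by
    intro i k hik
    apply hinj
    have key : ∀ h ∈ Subgroup.closure (s : Set G), ∀ hh : h ∈ H, χ i ⟨h, hh⟩ = χ k ⟨h, hh⟩ := by
      intro h hh
      induction hh using Subgroup.closure_induction with
      | mem a ha =>
        intro haH
        exact congrFun hik ⟨a, ha⟩
      | one =>
        intro h1
        have e : (⟨1, h1⟩ : H) = 1 := rfl
        rw [e, map_one, map_one]
      | mul a b ha hb iha ihb =>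
        intro hab
        have ha' : a ∈ H := hs ▸ ha
        have hb' : b ∈ H := hs ▸ hb
        have e : (⟨a * b, hab⟩ : H) = ⟨a, ha'⟩ * ⟨b, hb'⟩ := rfl
        rw [e, map_mul, map_mul, iha ha', ihb hb']
      | inv a ha iha =>
        intro hai
        have ha' : a ∈ H := hs ▸ ha
        have e : (⟨a⁻¹, hai⟩ : H) = ⟨a, ha'⟩⁻¹ := rfl
        rw [e, map_inv, map_inv, iha ha']
    ext ⟨h, hh⟩
    exact congrArg _ (key h (hs ▸ hh) hh)
  have h2 := Fintype.card_le_of_injective _ hinj2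
  have h3 : Fintype.card (Multiplicative (ZMod 2)) = 2 := rfl
  rw [Fintype.card_fin, Fintype.card_fun, Fintype.card_coe, h3] at h2
  exact h2

include hj in
theorem neg_rank : ¬ (∃ r : ℕ, ∀ H : Subgroup G, H.FG →
    ∃ s : Finset G, s.card ≤ r ∧ Subgroup.closure (s : Set G) = H) := by
  classical
  rintro ⟨r, hr⟩
  obtain ⟨s, hs1, hs2⟩ := hr (Subgroup.closure
    (((Finset.range (2 ^ r + 1)).image fun i => j (cc i) : Finset G) : Set G)) ⟨_, rfl⟩
  have h1 := no_gen j hj (2 ^ r + 1) _ (by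
    rw [Subgroup.closure_le]
    intro q hq
    simp only [Finset.coe_image, Set.mem_image] at hq
    obtain ⟨i, -, rfl⟩ := hq
    exact Subgroup.mem_map_of_mem _ (cc_mem i)) (fun i hi => Subgroup.subset_closure (by
      simp only [Finset.coe_image, Set.mem_image]
      exact ⟨i, by simpa using hi, rfl⟩)) s hs2
  have h2 : 2 ^ s.card ≤ 2 ^ r := Nat.pow_le_pow_right (by norm_num) hs1
  omega

include hj in
theorem neg_max : ¬ (∀ H : Subgroup G, H.FG) := by
  intro h
  obtain ⟨s, hs⟩ := h (Subgroup.closure (Set.range fun i => j (cc i)))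
  have h1 := no_gen j hj (2 ^ s.card + 1) _ (by
    rw [Subgroup.closure_le]
    rintro q ⟨i, rfl⟩
    exact Subgroup.mem_map_of_mem _ (cc_mem i)) (fun i _ => Subgroup.subset_closure (Set.mem_range_self i)) s hs
  omega

end

theorem io_inj {R : Subgroup FF} (h : Lim R) [R.Normal] :
    Function.Injective ((QuotientGroup.mk' R).comp io) := by
  rw [injective_iff_map_eq_one]
  intro x hx
  rw [MonoidHom.comp_apply] at hx
  exact h.free x ((QuotientGroup.eq_one_iff _).1 hx)

theorem fac' {R : Subgroup FF} (h : Lim R) [R.Normal] (g : FF ⧸ R) :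
    ∃ a ∈ ((QuotientGroup.mk' R).comp al).range, ∃ b ∈ ((QuotientGroup.mk' R).comp be).range,
      a * b = g := by
  obtain ⟨g0, rfl⟩ := QuotientGroup.mk_surjective g
  obtain ⟨x, y, hxy⟩ := h.fac g0
  refine ⟨_, ⟨x, rfl⟩, _, ⟨y, rfl⟩, ?_⟩
  rw [← QuotientGroup.eq_one_iff, QuotientGroup.mk_mul, QuotientGroup.mk_mul,
    QuotientGroup.mk_inv] at hxy
  exact mul_inv_eq_one.1 hxy

end FinJob

open FinJob

theorem final_rank {R : Subgroup FF} (h : Lim R) :
    ∃ (G : Type) (_ : Group G) (A B : Subgroup G),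
      (∃ r : ℕ, ∀ H : Subgroup G, H ≤ A → H.FG →
        ∃ s : Finset G, s.card ≤ r ∧ Subgroup.closure (s : Set G) = H) ∧
      (∃ r : ℕ, ∀ H : Subgroup G, H ≤ B → H.FG →
        ∃ s : Finset G, s.card ≤ r ∧ Subgroup.closure (s : Set G) = H) ∧
      (∀ g : G, ∃ a ∈ A, ∃ b ∈ B, a * b = g) ∧
      ¬ (∃ r : ℕ, ∀ H : Subgroup G, H.FG →
        ∃ s : Finset G, s.card ≤ r ∧ Subgroup.closure (s : Set G) = H) := by
  have := h.norm
  exact ⟨FF ⧸ R, inferInstance, ((QuotientGroup.mk' R).comp al).range,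
    ((QuotientGroup.mk' R).comp be).range,
    ⟨2, fun H hH _ => two_gen al h.genA h.cen H hH⟩,
    ⟨2, fun H hH _ => two_gen be h.genB h.cen H hH⟩, fac' h, neg_rank _ (io_inj h)⟩

theorem final_max {R : Subgroup FF} (h : Lim R) :
    ∃ (G : Type) (_ : Group G) (A B : Subgroup G),
      (∀ H : Subgroup G, H ≤ A → H.FG) ∧ (∀ H : Subgroup G, H ≤ B → H.FG) ∧
      (∀ g : G, ∃ a ∈ A, ∃ b ∈ B, a * b = g) ∧ ¬ (∀ H : Subgroup G, H.FG) := by
  have := h.norm
  refine ⟨FF ⧸ R, inferInstance, ((QuotientGroup.mk' R).comp al).range,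
    ((QuotientGroup.mk' R).comp be).range, fun H hH => ?_, fun H hH => ?_, fac' h,
    neg_max _ (io_inj h)⟩
  · obtain ⟨s, -, hs⟩ := two_gen al h.genA h.cen H hH
    exact ⟨s, hs⟩
  · obtain ⟨s, -, hs⟩ := two_gen be h.genB h.cen H hH
    exact ⟨s, hs⟩

end Pool.Agent.TH82.FG
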