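import Pool.Agent.TH82.FG.Defs
import Pool.Agent.TH63.SC.Br

set_option autoImplicit false
set_option linter.unusedSectionVars false

/-! Families of periodic broken lines (the axes of the relators). -/

namespace Pool.Agent.TH82.FG

open Pool.Agent.TH68 Pool.Agent.Helper97.Hyp Pool.Agent.TH63.SC

/-- a family of periodic broken lines, all with the same period `m` (number of blocks) -/
structure Fam {Γ : Type*} [Group Γ] {W : WNorm Γ} {𝒜 : Type*} [MulAction Γ 𝒜]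
    (Y : Sys Γ W 𝒜) (κ : Type*) where
  K : ℝ
  l : ℝ
  m : ℕ
  hm : 3 ≤ m
  r : κ → Γ
  P : κ → ℤ → Pt W
  A : κ → ℤ → 𝒜
  br : ∀ k, Br Y K l (4 * l) (P k) (A k)
  perP : ∀ k i, P k (i + m) = r k • P k i
  perA : ∀ k i, A k (i + m) = r k • A k i
  triv : ∀ A B : 𝒜, A ≠ B → ∀ γ : Γ, γ • A = A → γ • B = B → γ = 1
  sep : ∀ (k k' : κ) (i j : ℤ) (γ : Γ), γ • A k i = A k' j →
    |dist (P k i) (P k (i + 1)) - dist (P k' j) (P k' (j + 1))| ≤ 136 * K →
      k = k' ∧ (m : ℤ) ∣ j - i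

namespace Fam

variable {Γ : Type*} [Group Γ] {W : WNorm Γ} {𝒜 : Type*} [MulAction Γ 𝒜]
  {Y : Sys Γ W 𝒜} {κ : Type*} (D : Fam Y κ)

/-- the axes of the relators -/
abbrev Ax : Type _ := Σ k : κ, Γ ⧸ Subgroup.zpowers (D.r k)

/-- the axis of the conjugate of a relator -/
def ax (k : κ) (γ : Γ) : D.Ax := ⟨k, (γ : Γ ⧸ Subgroup.zpowers (D.r k))⟩

/-- the points of an axis -/
def S (A : D.Ax) : Set (Pt W) :=
  {x | ∃ (γ : Γ) (i : ℤ), D.ax A.1 γ = A ∧ x = γ • D.P A.1 i}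

end Fam

end Pool.Agent.TH82.FG
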