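import Pool.Agent.TH82.FG.State
import Pool.Agent.TH68.EZ

/-!
# FG-AL (job 2358, helper230 for helper82): algebra of the states
-/

set_option autoImplicit false
set_option linter.unusedSectionVars false

namespace Pool.Agent.TH82.FG

open Pool.Agent.TH68 Pool.Agent.Helper97.Hyp

namespace AlJob

/-- homomorphisms sending letters to letters (or one) do not increase the norm -/
theorem norm_hom_le {α β : Type} [DecidableEq α] [DecidableEq β]
    (f : FreeGroup α →* FreeGroup β) (hf : ∀ a, (f (FreeGroup.of a)).norm ≤ 1)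
    (w : FreeGroup α) : (f w).norm ≤ w.norm := by
  have key : ∀ L : List (α × Bool), (f (FreeGroup.mk L)).norm ≤ L.length := by
    intro L
    induction L with
    | nil =>
      have : (FreeGroup.mk [] : FreeGroup α) = 1 := rfl
      rw [this, map_one, FreeGroup.norm_one]
      simp
    | cons a L ih =>
      obtain ⟨a, b⟩ := a
      have h1 : (FreeGroup.mk ((a, b) :: L) : FreeGroup α) = FreeGroup.mk [(a, b)] * FreeGroup.mk L := by
        rw [FreeGroup.mul_mk]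
        rfl
      have h2 : (f (FreeGroup.mk [(a, b)])).norm ≤ 1 := by
        cases b with
        | true => exact hf a
        | false =>
          have h3 : (FreeGroup.mk [(a, false)] : FreeGroup α) = (FreeGroup.of a)⁻¹ := by
            rw [FreeGroup.of, FreeGroup.inv_mk]
            rfl
          rw [h3, map_inv, FreeGroup.norm_inv_eq]
          exact hf a
      rw [h1, map_mul]
      have h4 := FreeGroup.norm_mul_le (f (FreeGroup.mk [(a, b)])) (f (FreeGroup.mk L))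
      rw [List.length_cons]
      omega
  have := key w.toWord
  rw [FreeGroup.mk_toWord] at this
  exact this

/-- cutting a reduced word -/
theorem cut {α : Type} [DecidableEq α] (x : FreeGroup α) (k : ℕ) (hk : k ≤ x.norm) :
    ∃ u v : FreeGroup α, u * v = x ∧ u.norm ≤ k ∧ v.norm + k ≤ x.norm := by
  refine ⟨FreeGroup.mk (x.toWord.take k), FreeGroup.mk (x.toWord.drop k), ?_, ?_, ?_⟩
  · rw [FreeGroup.mul_mk, List.take_append_drop, FreeGroup.mk_toWord]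
  · refine FreeGroup.norm_mk_le.trans ?_
    rw [List.length_take]
    exact min_le_left _ _
  · have h1 : (FreeGroup.mk (x.toWord.drop k)).norm ≤ (x.toWord.drop k).length :=
      FreeGroup.norm_mk_le
    rw [List.length_drop] at h1
    have h2 : x.toWord.length = x.norm := rfl
    omega

end AlJob

open AlJob

section algebra
variable {Q : Type} [Group Q] {ψ : FF →* Q} {P : Subgroup GG} {W : WNorm Q} {δ : ℝ}

theorem ph_al (x : GG) : ph (al x) = x := by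
  have h : ph.comp al = MonoidHom.id GG := by
    ext i
    fin_cases i <;> simp [ph, al]
  exact DFunLike.congr_fun h x

theorem ph_be (x : GG) : ph (be x) = x := by
  have h : ph.comp be = MonoidHom.id GG := by
    ext i
    fin_cases i <;> simp [ph, be]
  exact DFunLike.congr_fun h x

theorem ph_io (x : GG) : ph (io x) = 1 := by
  have h : ph.comp io = 1 := by
    ext i
    fin_cases i <;> simp [ph, io]
  exact DFunLike.congr_fun h x

namespace AlJob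

theorem norm_ph (w : FF) : (ph w).norm ≤ w.norm :=
  norm_hom_le ph (by intro i; fin_cases i <;> simp [ph]) w

theorem norm_al (x : GG) : (al x).norm ≤ x.norm :=
  norm_hom_le al (by intro i; fin_cases i <;> simp [al]) x

theorem norm_be (x : GG) : (be x).norm ≤ x.norm :=
  norm_hom_le be (by intro i; fin_cases i <;> simp [be]) x

theorem norm_io (x : GG) : (io x).norm ≤ x.norm :=
  norm_hom_le io (by intro i; fin_cases i <;> simp [io]) x

/-- a factor -/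
structure Fac (ψ : FF →* Q) (P : Subgroup GG) (κ : GG →* FF) : Prop where
  ret : ∀ x, ph (κ x) = x
  nle : ∀ x, (κ x).norm ≤ x.norm
  pk : ∀ x ∈ P, ψ (κ x) = 1

theorem facA (h : St ψ P W δ) : Fac ψ P al := ⟨ph_al, norm_al, h.pa⟩

theorem facB (h : St ψ P W δ) : Fac ψ P be := ⟨ph_be, norm_be, h.pb⟩

theorem pk_eq {κ : GG →* FF} (hκ : Fac ψ P κ) {x y : GG} (h : x⁻¹ * y ∈ P) :
    ψ (κ x) = ψ (κ y) := by
  have h1 := hκ.pk _ h
  rw [map_mul, map_inv, map_mul, map_inv] at h1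
  exact inv_mul_eq_one.1 h1

theorem tf' (h : St ψ P W δ) {g : Q} {t : ℤ} (ht : t ≠ 0) (hg : g ^ t = 1) : g = 1 :=
  h.tf g (isOfFinOrder_iff_zpow_eq_one.2 ⟨t, ht, hg⟩)

/-- equal images have congruent retractions -/
theorem pp' (h : St ψ P W δ) {w w' : FF} (he : ψ w = ψ w') : ph w * (ph w')⁻¹ ∈ P := by
  have := h.pp (w * w'⁻¹) (by rw [map_mul, map_inv, he, mul_inv_cancel])
  rwa [map_mul, map_inv] at this

theorem short (h : St ψ P W δ) {κ : GG →* FF} (hκ : Fac ψ P κ) (x : GG) :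
    ∃ x' : GG, x⁻¹ * x' ∈ P ∧ x'.norm = W.ℓ (ψ (κ x)) ∧ ψ (κ x') = ψ (κ x) := by
  obtain ⟨w, hw, hn⟩ := h.ex (ψ (κ x))
  have h1 := pp' h hw
  rw [hκ.ret] at h1
  have h2 : x⁻¹ * ph w ∈ P := by
    have := h.norm.conj_mem _ h1 x⁻¹
    rwa [show x⁻¹ * (ph w * x⁻¹) * x⁻¹⁻¹ = x⁻¹ * ph w by group] at this
  have h3 := pk_eq hκ h2
  refine ⟨ph w, h2, le_antisymm ?_ ?_, h3.symm⟩
  · rw [← hn]
    exact norm_ph w
  · rw [h3]
    exact (h.le _).trans (hκ.nle _)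

theorem geo_gen (h : St ψ P W δ) {κ : GG →* FF} (hnle : ∀ x, (κ x).norm ≤ x.norm)
    (hs : ∀ x, ∃ x' : GG, x'.norm = W.ℓ (ψ (κ x)) ∧ ψ (κ x') = ψ (κ x)) :
    Geo W (ψ.comp κ).range := by
  rintro _ ⟨x, rfl⟩ k hk
  rw [MonoidHom.comp_apply] at hk ⊢
  obtain ⟨x', h1, h2⟩ := hs x
  obtain ⟨u, v, huv, hu, hv⟩ := cut x' k (by rw [h1]; exact hk)
  have h3 : ψ (κ u) * ψ (κ v) = ψ (κ x) := by rw [← map_mul, ← map_mul, huv, h2]
  have h4 := (h.le (κ u)).trans (hnle u)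
  have h5 := (h.le (κ v)).trans (hnle v)
  have h6 := W.mul_le (ψ (κ u)) (ψ (κ v))
  rw [h3] at h6
  exact ⟨_, ⟨u, rfl⟩, _, ⟨v, rfl⟩, h3, by
    show W.ℓ (ψ (κ u)) = k
    omega, by
    show k + W.ℓ (ψ (κ v)) = _
    omega⟩

theorem ngeo_gen (h : St ψ P W δ) {κ : GG →* FF} (hκ : Fac ψ P κ) {P' : Subgroup GG}
    {N : Subgroup Q} [N.Normal] [P'.Normal] (h1 : ∀ x ∈ P', ψ (κ x) ∈ N)
    (h2 : ∀ w, ψ w ∈ N → ph w ∈ P') : NGeo W N (ψ.comp κ).range := by
  classical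
  rintro _ ⟨x, rfl⟩
  have hex : ∃ m : ℕ, ∃ z : GG, x⁻¹ * z ∈ P' ∧ z.norm = m :=
    ⟨_, x, by rw [inv_mul_cancel]; exact P'.one_mem, rfl⟩
  obtain ⟨x', hx', hm⟩ := Nat.find_spec hex
  have hmin : ∀ z : GG, x⁻¹ * z ∈ P' → x'.norm ≤ z.norm := by
    intro z hz
    rw [hm]
    exact Nat.find_min' hex ⟨z, hz, rfl⟩
  refine ⟨ψ (κ x'), ⟨x', rfl⟩, ?_, fun n hn => ?_⟩
  · rw [MonoidHom.comp_apply, ← map_inv, ← map_inv, ← map_mul, ← map_mul]
    exact h1 _ hx'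
  · obtain ⟨w, hw, hwn⟩ := h.ex (ψ (κ x') * n)
    have h3 : ψ ((κ x')⁻¹ * w) ∈ N := by
      rw [map_mul, map_inv, hw, inv_mul_cancel_left]
      exact hn
    have h4 := h2 _ h3
    rw [map_mul, map_inv, hκ.ret] at h4
    have h5 : x⁻¹ * ph w ∈ P' := by
      have := P'.mul_mem hx' h4
      rwa [show x⁻¹ * x' * (x'⁻¹ * ph w) = x⁻¹ * ph w by group] at this
    have h6 := hmin _ h5
    rw [← hwn]
    exact ((h.le _).trans (hκ.nle _)).trans (h6.trans (norm_ph w))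

end AlJob

theorem St.geoA (h : St ψ P W δ) : Geo W (ψ.comp al).range :=
  geo_gen h norm_al fun x => by
    obtain ⟨x', -, h1, h2⟩ := short h (facA h) x
    exact ⟨x', h1, h2⟩

theorem St.geoB (h : St ψ P W δ) : Geo W (ψ.comp be).range :=
  geo_gen h norm_be fun x => by
    obtain ⟨x', -, h1, h2⟩ := short h (facB h) x
    exact ⟨x', h1, h2⟩

theorem St.geoF (h : St ψ P W δ) : Geo W (ψ.comp io).range :=
  geo_gen h norm_io fun x => ⟨x, (h.fi x).symm, rfl⟩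

theorem St.ngeoA (h : St ψ P W δ) {P' : Subgroup GG} {N : Subgroup Q} [N.Normal] [P'.Normal]
    (h1 : ∀ x ∈ P', ψ (al x) ∈ N) (h2 : ∀ w, ψ w ∈ N → ph w ∈ P') :
    NGeo W N (ψ.comp al).range := ngeo_gen h (facA h) h1 h2

theorem St.ngeoB (h : St ψ P W δ) {P' : Subgroup GG} {N : Subgroup Q} [N.Normal] [P'.Normal]
    (h1 : ∀ x ∈ P', ψ (be x) ∈ N) (h2 : ∀ w, ψ w ∈ N → ph w ∈ P') :
    NGeo W N (ψ.comp be).range := ngeo_gen h (facB h) h1 h2

theorem St.ssm (h : St ψ P W δ) : SSm ⊥ (ψ.comp al).range (ψ.comp be).range := by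
  rintro _ ⟨x, rfl⟩ _ ⟨y, rfl⟩ g hg
  rw [MonoidHom.comp_apply, MonoidHom.comp_apply, Subgroup.mem_bot] at hg
  have h1 := h.ss g x y (inv_mul_eq_one.1 hg).symm
  rw [MonoidHom.comp_apply, h.pa x h1]
  exact Subgroup.one_mem _

theorem St.len_eq (h : St ψ P W δ) (x : GG) : W.ℓ (ψ (al x)) = W.ℓ (ψ (be x)) := by
  obtain ⟨x1, a1, a2, -⟩ := short h (facA h) x
  obtain ⟨x2, b1, b2, -⟩ := short h (facB h) x
  have e1 := pk_eq (facB h) a1
  have e2 := pk_eq (facA h) b1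
  refine le_antisymm ?_ ?_
  · rw [e2, ← b2]
    exact (h.le _).trans (norm_al _)
  · rw [e1, ← a2]
    exact (h.le _).trans (norm_be _)

namespace AlJob

theorem root (h : St ψ P W δ) {g : Q} (hg : g ≠ 1) : ∃ g₀ : Q, Root g₀ ∧ g ∈ Subgroup.zpowers g₀ :=
  ez ⟨W, δ, h.hyp⟩ (fun h1 => hg (h.tf g h1)) fun x _ _ hx _ => h.tf x hx

end AlJob

theorem St.cyc (h : St ψ P W δ) {g : Q} (hg : g ≠ 1) :
    ∃ z : Q, ∀ y : Q, Commute y g → y ∈ Subgroup.zpowers z := by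
  obtain ⟨z, hz, a, ha⟩ := root h hg
  refine ⟨z, fun y hy => ?_⟩
  have ha' : z ^ a = g := ha
  have ha0 : a ≠ 0 := by
    rintro rfl
    exact hg (by rw [← ha', zpow_zero])
  exact hz.cent y a ha0 (ha'.symm ▸ hy)

theorem St.comm_zpow (h : St ψ P W δ) {g y : Q} {k : ℤ} (hk : k ≠ 0)
    (hy : Commute y (g ^ k)) : Commute y g := by
  by_cases hg : g = 1
  · rw [hg]
    exact Commute.one_right y
  obtain ⟨z, hz, a, ha⟩ := root h hg
  have ha' : z ^ a = g := ha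
  have ha0 : a ≠ 0 := by
    rintro rfl
    exact hg (by rw [← ha', zpow_zero])
  rw [← ha', ← zpow_mul] at hy
  obtain ⟨b, hb⟩ := hz.cent y (a * k) (mul_ne_zero ha0 hk) hy
  have hb' : z ^ b = y := hb
  rw [← ha', ← hb']
  exact (Commute.refl z).zpow_zpow b a

namespace AlJob

theorem mal_gen (h : St ψ P W δ) {κ : GG →* FF} (hκ : Fac ψ P κ) {y a : Q}
    (ha : a ∈ (ψ.comp κ).range) (ha1 : a ≠ 1) (hy : y * a * y⁻¹ ∈ (ψ.comp κ).range) :
    y ∈ (ψ.comp κ).range := by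
  obtain ⟨x, rfl⟩ := ha
  obtain ⟨x', hx'⟩ := hy
  obtain ⟨w, rfl⟩ := h.surj y
  rw [MonoidHom.comp_apply] at ha1 hx'
  rw [MonoidHom.comp_apply] at hx'
  set p := ph w with hp
  -- the conjugate in the factor
  have h1 : ψ (κ x') = ψ (κ (p * x * p⁻¹)) := by
    have h2 : ψ (w * κ x * w⁻¹) = ψ (κ x') := by rw [map_mul, map_mul, map_inv, hx']
    have h3 := pp' h h2
    rw [map_mul, map_mul, map_inv, hκ.ret, hκ.ret] at h3
    refine pk_eq hκ ?_
    have := h.norm.conj_mem _ h3 x'⁻¹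
    rwa [show x'⁻¹ * (ph w * x * (ph w)⁻¹ * x'⁻¹) * x'⁻¹⁻¹ = x'⁻¹ * (p * x * p⁻¹) by
      rw [hp]; group] at this
  set a' := ψ (κ (p * x * p⁻¹)) with ha'
  have ha'' : a' = ψ (κ p) * ψ (κ x) * (ψ (κ p))⁻¹ := by
    rw [ha', map_mul, map_mul, map_mul, map_mul, map_inv, map_inv]
  have ha'1 : a' ≠ 1 := by
    intro h2
    rw [ha''] at h2
    apply ha1
    have := mul_inv_eq_one.1 h2
    exact mul_eq_left.1 this
  have hcomm : Commute (ψ (w * (κ p)⁻¹)) a' := by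
    have h2 : ψ w * ψ (κ x) * (ψ w)⁻¹ = a' := by rw [← hx', h1]
    show ψ (w * (κ p)⁻¹) * a' = a' * ψ (w * (κ p)⁻¹)
    rw [map_mul, map_inv]
    nth_rewrite 2 [← h2]
    rw [ha'']
    group
  obtain ⟨z, hz, i, hi⟩ := root h ha'1
  have hi' : z ^ i = a' := hi
  have hi0 : i ≠ 0 := by
    rintro rfl
    exact ha'1 (by rw [← hi', zpow_zero])
  obtain ⟨j, hj⟩ := hz.cent _ i hi0 (hi'.symm ▸ hcomm)
  have hj' : z ^ j = ψ (w * (κ p)⁻¹) := hj
  -- compare the retractions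
  have h2 : ψ ((w * (κ p)⁻¹) ^ i) = ψ ((κ (p * x * p⁻¹)) ^ j) := by
    rw [map_zpow, map_zpow, ← hj', ← ha', ← hi', ← zpow_mul, ← zpow_mul, mul_comm]
  have h3 := pp' h h2
  rw [map_zpow, map_zpow, map_mul, map_inv, hκ.ret, hκ.ret, ← hp, mul_inv_cancel, one_zpow,
    one_mul] at h3
  have h4 : ψ (κ ((p * x * p⁻¹) ^ j)) = 1 := hκ.pk _ ((inv_inv ((p * x * p⁻¹) ^ j)) ▸ P.inv_mem h3)
  rw [map_zpow, map_zpow, ← ha'] at h4
  have hj0 : j = 0 := by
    by_contra hj0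
    exact ha'1 (tf' h hj0 h4)
  rw [hj0, zpow_zero, map_mul, map_inv] at hj'
  exact ⟨p, (mul_inv_eq_one.1 hj'.symm).symm⟩

end AlJob

theorem St.malA (h : St ψ P W δ) {y a : Q} (ha : a ∈ (ψ.comp al).range) (ha1 : a ≠ 1)
    (hy : y * a * y⁻¹ ∈ (ψ.comp al).range) : y ∈ (ψ.comp al).range :=
  mal_gen h (facA h) ha ha1 hy

theorem St.malB (h : St ψ P W δ) {y a : Q} (ha : a ∈ (ψ.comp be).range) (ha1 : a ≠ 1)
    (hy : y * a * y⁻¹ ∈ (ψ.comp be).range) : y ∈ (ψ.comp be).range :=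
  mal_gen h (facB h) ha ha1 hy

namespace AlJob

theorem noF_gen (h : St ψ P W δ) {κ : GG →* FF} (hκ : Fac ψ P κ) {x : GG} (hx : x ∉ P) (y : Q)
    {t : ℤ} (ht : t ≠ 0) : y * ψ (κ x) ^ t * y⁻¹ ∉ (ψ.comp io).range := by
  rintro ⟨v, hv⟩
  obtain ⟨w, rfl⟩ := h.surj y
  have h1 : ψ (w * κ (x ^ t) * w⁻¹) = ψ (io v) := by
    rw [map_mul, map_mul, map_inv, map_zpow, map_zpow, ← hv, MonoidHom.comp_apply]
  have h2 := pp' h h1
  rw [map_mul, map_mul, map_inv, hκ.ret, ph_io, inv_one, mul_one] at h2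
  have h3 : x ^ t ∈ P := by
    have := h.norm.conj_mem _ h2 (ph w)⁻¹
    rwa [show (ph w)⁻¹ * (ph w * x ^ t * (ph w)⁻¹) * (ph w)⁻¹⁻¹ = x ^ t by group] at this
  have h4 := hκ.pk _ h3
  rw [map_zpow, map_zpow] at h4
  have h5 := h.pp _ (tf' h ht h4)
  rw [hκ.ret] at h5
  exact hx h5

end AlJob

theorem St.noFA (h : St ψ P W δ) {x : GG} (hx : x ∉ P) (y : Q) {t : ℤ} (ht : t ≠ 0) :
    y * ψ (al x) ^ t * y⁻¹ ∉ (ψ.comp io).range := noF_gen h (facA h) hx y ht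

theorem St.noFB (h : St ψ P W δ) {x : GG} (hx : x ∉ P) (y : Q) {t : ℤ} (ht : t ≠ 0) :
    y * ψ (be x) ^ t * y⁻¹ ∉ (ψ.comp io).range := noF_gen h (facB h) hx y ht

theorem St.noAB (h : St ψ P W δ) {x : GG} (hx : x ∉ P) (y : Q) {i j : ℤ} (hi : i ≠ 0) :
    y * ψ (be x) ^ i * y⁻¹ ≠ ψ (al x) ^ j := by
  intro he
  have h1 := h.ss y (x ^ j) (x ^ i) (by rw [map_zpow, map_zpow, map_zpow, map_zpow]; exact he)
  have h2 := h.pa _ h1
  rw [map_zpow, map_zpow] at h2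
  rw [h2, mul_inv_eq_one, mul_eq_left] at he
  have h3 := h.pp _ (tf' h hi he)
  rw [ph_be] at h3
  exact hx h3

end algebra

end Pool.Agent.TH82.FG
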