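import Pool.Agent.TH63.SC.FamSys
import Pool.Agent.TH82.FG.State

set_option autoImplicit false
set_option linter.unusedSectionVars false

/-! From the integer description of the cells of a strip to the predicate `Cells`
(job FG-CEL2, helper293). -/

namespace Pool.Agent.TH82.FG

open Pool.Agent.TH68 Pool.Agent.Helper97.Hyp Pool.Agent.TH63.SC

/-- the conclusion of `Fam.cell` -/
def CellStmt {Γ : Type*} [Group Γ] {W : WNorm Γ} {𝒜 : Type*} [MulAction Γ 𝒜] {Y : Sys Γ W 𝒜}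
    {κ : Type*} (D : Fam Y κ) (k : κ) (n : ℕ) : Prop :=
  ∀ {x₀ x₁ z₁ z₀ : Pt W} {i₁ i₂ t : ℤ}, t ≠ 0 →
    dist (D.P k (i₁ + D.m * t)) (D.P k i₂) ≤ 5100 * D.l →
    dist x₁ z₁ ≤ 10 ^ 5 * D.l →
    exc x₀ x₁ (D.P k i₁) ≤ 10 ^ 5 * D.l → exc z₁ z₀ (D.P k i₂) ≤ 10 ^ 5 * D.l →
    (∀ i : ℤ, (n : ℤ) ≤ i % (D.m : ℤ) → pd (Y.S (D.A k i)) x₀ x₁ < D.l / 2) →
    (∀ i : ℤ, i % (D.m : ℤ) < n → pd (Y.S (D.A k i)) z₁ z₀ < D.l / 2) →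
    ∃ j : ℤ,
      (t = 1 ∧ |i₁ - D.m * j| ≤ 2 * 10 ^ 7 ∧
        (∃ i, D.m * j ≤ i ∧ i < D.m * j + n ∧ D.l / 2 ≤ pd (Y.S (D.A k i)) x₀ x₁) ∧
        (∃ i, D.m * j + n ≤ i ∧ i < D.m * (j + 1) ∧ D.l / 2 ≤ pd (Y.S (D.A k i)) z₁ z₀) ∧
        exc (D.P k i₁) x₁ (D.P k (D.m * j + n)) ≤ 10 ^ 9 * D.l ∧
        exc z₁ (D.P k i₂) (D.P k (D.m * j + n)) ≤ 10 ^ 9 * D.l) ∨
      (t = -1 ∧ |i₁ - (D.m * j + n)| ≤ 2 * 10 ^ 7 ∧
        (∃ i, D.m * j ≤ i ∧ i < D.m * j + n ∧ D.l / 2 ≤ pd (Y.S (D.A k i)) x₀ x₁) ∧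
        (∃ i, D.m * j - n ≤ i ∧ i < D.m * j ∧ D.l / 2 ≤ pd (Y.S (D.A k i)) z₁ z₀) ∧
        exc (D.P k i₁) x₁ (D.P k (D.m * j)) ≤ 10 ^ 9 * D.l ∧
        exc z₁ (D.P k i₂) (D.P k (D.m * j)) ≤ 10 ^ 9 * D.l)

namespace CelB

variable {Γ : Type*} [Group Γ] {W : WNorm Γ} {𝒜 : Type*} [MulAction Γ 𝒜] {Y : Sys Γ W 𝒜}
  {κ : Type*} (D : Fam Y κ)

lemma l_pos (k : κ) : 0 < D.l := by
  have h1 := (D.br k).K_one
  have h2 := (D.br k).hl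
  linarith

lemma dist_P_le (k : κ) (i j : ℤ) : dist (D.P k i) (D.P k j) ≤ (|i - j| : ℤ) * (4 * D.l) := by
  wlog hij : i ≤ j generalizing i j with H
  · have h1 := H j i (by omega)
    rw [dist_comm, abs_sub_comm]
    exact h1
  · have h1 := D.up k i (j - i).toNat
    have h2 : ((j - i).toNat : ℤ) = j - i := by omega
    rw [h2, add_sub_cancel] at h1
    have h3 : |i - j| = j - i := by rw [abs_sub_comm]; exact abs_of_nonneg (by omega)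
    rw [h3]
    have h4 : ((j - i).toNat : ℝ) = ((j - i : ℤ) : ℝ) := by exact_mod_cast h2
    rw [h4] at h1
    exact h1

end CelB

/-- the group bookkeeping, from the integer description of the cells -/
theorem cells_of_fam' {Γ : Type} [Group Γ] {W : WNorm Γ} {E : Bool → Subgroup Γ}
    {Y : Sys Γ W (Σ b : Bool, Γ ⧸ E b)} {o : Bool → Pt W}
    (D : Fam Y Unit) {Z : Sys Γ W D.Ax} (R : Spq Z) (hZθ : Z.θ = 100 * D.l) (hZS : Z.S = D.S)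
    (hRG : ∀ γ g, g ∈ R.G (D.ax () γ) ↔ ∃ j : ℤ, g = γ * D.r () ^ j * γ⁻¹)
    {n : ℕ} (hm : D.m = 2 * n) (hn : 0 < n) (hcell : CellStmt D () n)
    {A B : Subgroup Γ} {g₀ r w : Γ} (hr : D.r () = r)
    (ty : ℤ → Bool) (g : ℤ → Γ) (hty : ∀ i, ty i = true ↔ i % (D.m : ℤ) < n)
    (hA : ∀ i, D.A () i = ⟨ty i, (g i : Γ ⧸ E (ty i))⟩) (hP : ∀ i, D.P () i = g i • o (ty i))
    (hgr : ∀ i (j : ℤ), g (i + D.m * j) = r ^ j * g i) (hg0 : g 0 = 1) (hgn : g n = w)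
    (hgA : ∀ i : ℤ, 0 ≤ i → i < n → g i ∈ A)
    (hgB : ∀ i : ℤ, n ≤ i → i < D.m → w⁻¹ * g i ∈ B)
    (hw : w⁻¹ * r * g₀ ∈ B) (ho : ∀ b, dist (o b) (pt W 1) ≤ D.l)
    (cAA : ∀ γ y : Γ, ∀ c ∈ A, ∀ c' ∈ A,
      D.l / 2 ≤ pd (Y.S ⟨true, (γ : Γ ⧸ E true)⟩) (pt W (y * c)) (pt W (y * c')) → y⁻¹ * γ ∈ A)
    (cAB : ∀ γ y : Γ, ∀ c ∈ A, ∀ c' ∈ A,
      pd (Y.S ⟨false, (γ : Γ ⧸ E false)⟩) (pt W (y * c)) (pt W (y * c')) < D.l / 2)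
    (cBB : ∀ γ y : Γ, ∀ c ∈ B, ∀ c' ∈ B,
      D.l / 2 ≤ pd (Y.S ⟨false, (γ : Γ ⧸ E false)⟩) (pt W (y * c)) (pt W (y * c')) → y⁻¹ * γ ∈ B)
    (cBA : ∀ γ y : Γ, ∀ c ∈ B, ∀ c' ∈ B,
      pd (Y.S ⟨true, (γ : Γ ⧸ E true)⟩) (pt W (y * c)) (pt W (y * c')) < D.l / 2) :
    Cells Z R A B w g₀ r (2 * 10 ^ 9 * D.l) := by
  subst hr
  have hl := CelB.l_pos D ()
  intro a₀ ha₀ a₁ ha₁ y b₁ hb₁ b₀ hb₀ S ρ hρ hρ1 q₁ hq₁ q₂ hq₂ hd hJ he₁ he₂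
  obtain ⟨u, γ, rfl⟩ := D.ax_surj S
  obtain rfl : u = () := rfl
  obtain ⟨t, ht⟩ := (hRG γ ρ).1 hρ
  have ht0 : t ≠ 0 := by
    rintro rfl
    apply hρ1
    rw [ht, zpow_zero, mul_one, mul_inv_cancel]
  rw [hZS] at hq₁ hq₂
  obtain ⟨i₁, rfl⟩ := (D.mem_S _ _ _).1 hq₁
  obtain ⟨i₂, rfl⟩ := (D.mem_S _ _ _).1 hq₂
  rw [hZθ] at hd hJ he₁ he₂
  -- translate by `γ⁻¹`
  have e1 : ρ • γ • D.P () i₁ = γ • D.P () (i₁ + D.m * t) := by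
    rw [ht, mul_comm (D.m : ℤ) t, D.perz, smul_smul, smul_smul, inv_mul_cancel_right]
  rw [e1, dist_smul] at hd
  have hx : ∀ a : Γ, pt W a = γ • pt W (γ⁻¹ * a) := by
    intro a
    rw [smul_pt, mul_inv_cancel_left]
  have hd' : dist (D.P () (i₁ + D.m * t)) (D.P () i₂) ≤ 5100 * D.l := by linarith
  have hJ' : dist (pt W (γ⁻¹ * a₁)) (pt W (γ⁻¹ * (y * b₁))) ≤ 10 ^ 5 * D.l := by
    rw [hx a₁, hx (y * b₁), dist_smul] at hJ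
    linarith
  have he₁' : exc (pt W (γ⁻¹ * a₀)) (pt W (γ⁻¹ * a₁)) (D.P () i₁) ≤ 10 ^ 5 * D.l := by
    rw [hx a₀, hx a₁, exc_smul] at he₁
    linarith
  have he₂' : exc (pt W (γ⁻¹ * (y * b₁))) (pt W (γ⁻¹ * (y * b₀))) (D.P () i₂) ≤ 10 ^ 5 * D.l := by
    rw [hx (y * b₁), hx (y * b₀), exc_smul] at he₂
    linarith
  have htyf : ∀ i, (n : ℤ) ≤ i % (D.m : ℤ) → ty i = false := by
    intro i hi
    have h1 := (hty i).not.2 (by omega)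
    simpa using h1
  have hX : ∀ i : ℤ, (n : ℤ) ≤ i % (D.m : ℤ) →
      pd (Y.S (D.A () i)) (pt W (γ⁻¹ * a₀)) (pt W (γ⁻¹ * a₁)) < D.l / 2 := by
    intro i hi
    rw [hA i, htyf i hi]
    exact cAB (g i) γ⁻¹ a₀ ha₀ a₁ ha₁
  have hZ : ∀ i : ℤ, i % (D.m : ℤ) < n →
      pd (Y.S (D.A () i)) (pt W (γ⁻¹ * (y * b₁))) (pt W (γ⁻¹ * (y * b₀))) < D.l / 2 := by
    intro i hi
    rw [hA i, (hty i).2 hi, ← mul_assoc, ← mul_assoc]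
    exact cBA (g i) (γ⁻¹ * y) b₁ hb₁ b₀ hb₀
  have hm' : (D.m : ℤ) = 2 * n := by exact_mod_cast hm
  -- the two crossings
  have crA : ∀ j i : ℤ, D.m * j ≤ i → i < D.m * j + n →
      D.l / 2 ≤ pd (Y.S (D.A () i)) (pt W (γ⁻¹ * a₀)) (pt W (γ⁻¹ * a₁)) →
      γ * D.r () ^ j ∈ A := by
    intro j i h1 h2 h3
    obtain ⟨i', rfl⟩ : ∃ i', i = i' + D.m * j := ⟨i - D.m * j, by ring⟩
    have h4 : 0 ≤ i' := by omega
    have h5 : i' < n := by omega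
    have h6 : (i' + D.m * j) % (D.m : ℤ) = i' := by
      rw [Int.add_mul_emod_self_left]
      exact Int.emod_eq_of_lt h4 (by omega)
    have h7 : ty (i' + D.m * j) = true := (hty _).2 (by rw [h6]; exact h5)
    rw [hA, h7] at h3
    have h8 := cAA (g (i' + D.m * j)) γ⁻¹ a₀ ha₀ a₁ ha₁ h3
    rw [inv_inv, hgr, ← mul_assoc] at h8
    exact (Subgroup.mul_mem_cancel_right A (hgA i' h4 h5)).1 h8
  have crB : ∀ j i : ℤ, D.m * j + n ≤ i → i < D.m * (j + 1) →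
      D.l / 2 ≤ pd (Y.S (D.A () i)) (pt W (γ⁻¹ * (y * b₁))) (pt W (γ⁻¹ * (y * b₀))) →
      y⁻¹ * (γ * D.r () ^ j) * w ∈ B := by
    intro j i h1 h2 h3
    obtain ⟨i', rfl⟩ : ∃ i', i = i' + D.m * j := ⟨i - D.m * j, by ring⟩
    have h4 : (n : ℤ) ≤ i' := by omega
    have h5 : i' < D.m := by
      have : (D.m : ℤ) * (j + 1) = D.m * j + D.m := by ring
      omega
    have h6 : (i' + D.m * j) % (D.m : ℤ) = i' := by
      rw [Int.add_mul_emod_self_left]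
      exact Int.emod_eq_of_lt (by omega) h5
    have h7 : ty (i' + D.m * j) = false := htyf _ (by rw [h6]; exact h4)
    rw [hA, h7, ← mul_assoc, ← mul_assoc] at h3
    have h8 := cBB (g (i' + D.m * j)) (γ⁻¹ * y) b₁ hb₁ b₀ hb₀ h3
    rw [hgr] at h8
    have h9 : y⁻¹ * (γ * D.r () ^ j) * w =
        ((γ⁻¹ * y)⁻¹ * (D.r () ^ j * g i')) * (w⁻¹ * g i')⁻¹ := by group
    rw [h9]
    exact B.mul_mem h8 (B.inv_mem (hgB i' h4 h5))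
  -- the base points
  have hm0 : (0 : ℤ) < n := by exact_mod_cast hn
  have hpt : ∀ i j : ℤ, γ • D.P () (i + D.m * j) = (γ * D.r () ^ j * g i) • o (ty i) := by
    intro i j
    rw [mul_comm (D.m : ℤ) j, D.perz, hP, smul_smul, smul_smul, mul_assoc]
  have hpA : ∀ j : ℤ, dist (γ • D.P () (D.m * j)) (pt W (γ * D.r () ^ j)) ≤ D.l := by
    intro j
    have h1 := hpt 0 j
    rw [zero_add, hg0, mul_one] at h1
    rw [h1, ← smul_base W (γ * D.r () ^ j), dist_smul]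
    exact ho _
  have hpB : ∀ j : ℤ, dist (γ • D.P () (D.m * j + n)) (pt W (γ * D.r () ^ j * w)) ≤ D.l := by
    intro j
    have h1 := hpt n j
    rw [hgn] at h1
    rw [add_comm, h1, ← smul_base W (γ * D.r () ^ j * w), dist_smul]
    exact ho _
  obtain ⟨j, hj⟩ := hcell ht0 hd' hJ' he₁' he₂' hX hZ
  have hclose : ∀ i : ℤ, |i₁ - i| ≤ 2 * 10 ^ 7 → dist (γ • D.P () i₁) (γ • D.P () i) ≤
      8 * 10 ^ 7 * D.l := by
    intro i hi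
    rw [dist_smul]
    have h1 := CelB.dist_P_le D () i₁ i
    have h2 : ((|i₁ - i| : ℤ) : ℝ) ≤ 2 * 10 ^ 7 := by exact_mod_cast hi
    have h3 : ((|i₁ - i| : ℤ) : ℝ) * (4 * D.l) ≤ 2 * 10 ^ 7 * (4 * D.l) := by gcongr
    linarith
  have hexa : ∀ (i : ℤ) (h : Γ), dist (γ • D.P () i) (pt W h) ≤ D.l →
      exc (D.P () i₁) (pt W (γ⁻¹ * a₁)) (D.P () i) ≤ 10 ^ 9 * D.l →
      exc (γ • D.P () i₁) (pt W a₁) (pt W h) ≤ 2 * 10 ^ 9 * D.l := by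
    intro i h h1 h2
    have h3 : exc (γ • D.P () i₁) (pt W a₁) (γ • D.P () i) ≤ 10 ^ 9 * D.l := by
      rw [hx a₁, exc_smul]
      exact h2
    have h4 := exc_move (γ • D.P () i₁) (pt W a₁) (γ • D.P () i) (pt W h)
    linarith
  have hexb : ∀ (i : ℤ) (h : Γ), dist (γ • D.P () i) (pt W h) ≤ D.l →
      exc (pt W (γ⁻¹ * (y * b₁))) (D.P () i₂) (D.P () i) ≤ 10 ^ 9 * D.l →
      exc (pt W (y * b₁)) (γ • D.P () i₂) (pt W h) ≤ 2 * 10 ^ 9 * D.l := by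
    intro i h h1 h2
    have h3 : exc (pt W (y * b₁)) (γ • D.P () i₂) (γ • D.P () i) ≤ 10 ^ 9 * D.l := by
      rw [hx (y * b₁), exc_smul]
      exact h2
    have h4 := exc_move (pt W (y * b₁)) (γ • D.P () i₂) (γ • D.P () i) (pt W h)
    linarith
  rcases hj with ⟨rfl, h1, ⟨i, h2, h3, h4⟩, ⟨i', h5, h6, h7⟩, h8, h9⟩ |
    ⟨rfl, h1, ⟨i, h2, h3, h4⟩, ⟨i', h5, h6, h7⟩, h8, h9⟩
  · refine ⟨γ * D.r () ^ j, crA j i h2 h3 h4, Or.inl ⟨?_, ?_, ?_, ?_, ?_⟩⟩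
    · rw [ht]
      group
    · have h10 := hclose _ h1
      have h11 := hpA j
      have h12 := dist_triangle (γ • D.P () i₁) (γ • D.P () (D.m * j)) (pt W (γ * D.r () ^ j))
      linarith
    · exact hexa _ _ (hpB j) h8
    · exact hexb _ _ (hpB j) h9
    · exact crB j i' h5 h6 h7
  · refine ⟨γ * D.r () ^ j, crA j i h2 h3 h4, Or.inr ⟨?_, ?_, ?_, ?_, ?_⟩⟩
    · rw [ht]
      group
    · have h10 := hclose _ h1
      have h11 := hpB j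
      have h12 := dist_triangle (γ • D.P () i₁) (γ • D.P () (D.m * j + n))
        (pt W (γ * D.r () ^ j * w))
      linarith
    · exact hexa _ _ (hpA j) h8
    · exact hexb _ _ (hpA j) h9
    · have h13 := crB (j - 1) i' (by
        have : (D.m : ℤ) * (j - 1) = D.m * j - D.m := by ring
        omega) (by rw [sub_add_cancel]; exact h6) h7
      have h14 : y⁻¹ * (γ * D.r () ^ j) * g₀ =
          (y⁻¹ * (γ * D.r () ^ (j - 1)) * w) * (w⁻¹ * D.r () * g₀) := by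
        rw [zpow_sub_one]
        group
      rw [h14]
      exact B.mul_mem h13 hw

end Pool.Agent.TH82.FG
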