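import Pool.Agent.TH68.Sys
import Pool.Agent.TH68.Wind

set_option autoImplicit false
set_option linter.unusedSectionVars false

/-! Definitions for the factorised groups project (S02059 and MP_e1b29e_al Q2). -/

namespace Pool.Agent.TH82.FG

open Pool.Agent.TH68 Pool.Agent.Helper97.Hyp

/-- a spinning family on a system of axes in which the stabilizer of an axis is its rotation
group -/
structure Spq {Γ : Type*} [Group Γ] {W : WNorm Γ} {𝒜 : Type*} [MulAction Γ 𝒜]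
    (Y : Sys Γ W 𝒜) where
  M : ℝ
  N : Subgroup Γ
  normal : N.Normal
  G : 𝒜 → Subgroup Γ
  G_le : ∀ A, G A ≤ N
  fix : ∀ A, ∀ r ∈ G A, r • A = A
  stab : ∀ A (e : Γ), e • A = A → e ∈ G A
  spin : ∀ A, ∀ r ∈ G A, r ≠ 1 → ∀ q ∈ Y.S A, M ≤ dist q (r • q)
  /-- the windmill property -/
  wind : ∀ n ∈ N, n ≠ 1 → ∀ x : Pt W,
    ∃ A, ∃ r ∈ G A, r ≠ 1 ∧ pd (Y.S A) (r • x) (n • x) ≤ 50 * Y.θ
  /-- rotations are cobounded on the axis -/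
  cob : ∃ R : ℝ, ∀ A, ∀ p ∈ Y.S A, ∀ q ∈ Y.S A, ∃ r ∈ G A, dist p (r • q) ≤ R

attribute [instance] Spq.normal

/-- a system of axes with separate constants, locally finite -/
structure Raw (Γ : Type*) [Group Γ] (W : WNorm Γ) (𝒜 : Type*) [MulAction Γ 𝒜] where
  δ : ℝ
  c : ℝ
  s : ℝ
  hyp : GHyp (Pt W) δ
  hδ : 1 ≤ δ
  hc : 0 ≤ c
  hs : 0 ≤ s
  S : 𝒜 → Set (Pt W)
  Sne : ∀ A, (S A).Nonempty
  smul_mem : ∀ (γ : Γ) (A : 𝒜) (x : Pt W), x ∈ S A → γ • x ∈ S (γ • A)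
  proj : ∀ (A : 𝒜) (x : Pt W), ∃ q, IsProj c (S A) x q
  small : ∀ A B : 𝒜, A ≠ B → ∀ p ∈ S B, ∀ q ∈ S B, pd (S A) p q ≤ s
  fin : ∀ (x : Pt W) (r : ℝ), {A | ∃ p ∈ S A, dist x p ≤ r}.Finite

section raw

variable {Γ : Type*} [Group Γ] {W : WNorm Γ} {𝒜 : Type*} [MulAction Γ 𝒜]

/-- the joint constant -/
def Raw.θ (Y : Raw Γ W 𝒜) : ℝ := Y.s + 3 * Y.c + 2 * Y.δ + 1

/-- the underlying system -/
def Raw.toSys (Y : Raw Γ W 𝒜) : Sys Γ W 𝒜 where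
  δ := Y.δ
  θ := Y.θ
  hyp := Y.hyp
  hδ := Y.hδ
  hθ := by
    have h1 := Y.hδ
    have h2 := Y.hc
    have h3 := Y.hs
    unfold Raw.θ; linarith
  S := Y.S
  Sne := Y.Sne
  smul_mem := Y.smul_mem
  proj A x := by
    obtain ⟨q, hq⟩ := Y.proj A x
    have h1 := Y.hδ
    have h2 := Y.hc
    have h3 := Y.hs
    exact ⟨q, hq.1, fun s hs => (hq.2 s hs).trans (by unfold Raw.θ; linarith)⟩
  small A B h p hp q hq := by
    have h1 := Y.hδ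
    have h2 := Y.hc
    exact (Y.small A B h p hp q hq).trans (by unfold Raw.θ; linarith)

end raw

/-- geodesic subgroups -/
def Geo {Γ : Type*} [Group Γ] (W : WNorm Γ) (C : Subgroup Γ) : Prop :=
  ∀ c ∈ C, ∀ k ≤ W.ℓ c, ∃ a ∈ C, ∃ b ∈ C, a * b = c ∧ W.ℓ a = k ∧ k + W.ℓ b = W.ℓ c

end Pool.Agent.TH82.FG
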