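import Pool.Agent.TH82.FG.Alg

/-!
# FG-LIM (job 2360, helper230 for helper82): the limit argument
-/

set_option autoImplicit false

namespace Pool.Agent.TH82.FG

open Pool.Agent.TH68 Pool.Agent.Helper97.Hyp

namespace LimJob

theorem good_normal {R : Subgroup FF} (h : Good R) : R.Normal := by
  obtain ⟨Q, _, ψ, P, W, δ, h, rfl⟩ := h
  exact ψ.normal_ker

theorem good_free {R : Subgroup FF} (h : Good R) {x : GG} (hx : io x ∈ R) : x = 1 := by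
  obtain ⟨Q, _, ψ, P, W, δ, h, rfl⟩ := h
  have h1 := h.fi x
  rw [MonoidHom.mem_ker.1 hx, W.one'] at h1
  exact FreeGroup.norm_eq_zero.1 h1.symm

theorem good_cen {R : Subgroup FF} (h : Good R) {t : FF} (ht : t ∉ R) :
    ∃ z : FF, ∀ h : FF, h * t * h⁻¹ * t⁻¹ ∈ R → ∃ k : ℤ, h⁻¹ * z ^ k ∈ R := by
  obtain ⟨Q, _, ψ, P, W, δ, h, rfl⟩ := h
  have ht' : ψ t ≠ 1 := fun h1 => ht (MonoidHom.mem_ker.2 h1)
  obtain ⟨z, hz⟩ := h.cyc ht'
  obtain ⟨z0, rfl⟩ := h.surj z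
  refine ⟨z0, fun g hg => ?_⟩
  rw [MonoidHom.mem_ker, map_mul, map_mul, map_mul, map_inv, map_inv] at hg
  have h1 : Commute (ψ g) (ψ t) := by
    have h2 := mul_inv_eq_one.1 hg
    exact mul_inv_eq_iff_eq_mul.1 h2
  obtain ⟨k, hk⟩ := hz _ h1
  have hk' : ψ z0 ^ k = ψ g := hk
  refine ⟨k, ?_⟩
  rw [MonoidHom.mem_ker, map_mul, map_inv, map_zpow, hk', inv_mul_cancel]

theorem good_com {R : Subgroup FF} (h : Good R) (x : GG) : al x ∈ R ↔ be x ∈ R := by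
  obtain ⟨Q, _, ψ, P, W, δ, h, rfl⟩ := h
  rw [MonoidHom.mem_ker, MonoidHom.mem_ker]
  constructor
  · intro h1
    have h2 := h.pp _ h1
    rw [ph_al] at h2
    exact h.pb x h2
  · intro h1
    have h2 := h.pp _ h1
    rw [ph_be] at h2
    exact h.pa x h2

/-- what is achieved in one step -/
def Stp (τ : FF ⊕ (GG × GG × GG)) (R R' : Subgroup FF) : Prop :=
  (∀ g, τ = Sum.inl g → ∃ x y : GG, al x * be y * g⁻¹ ∈ R') ∧
  (∀ x y s, τ = Sum.inr (x, y, s) → al (x * y * x⁻¹ * y⁻¹) ∉ R →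
    ∃ v ∈ Subgroup.closure ({x, y} : Set GG), al (v * s⁻¹) ∈ R' ∧ be (v * s⁻¹) ∈ R')

theorem exists_next (h1 : StepI) (h2 : StepII) (τ : FF ⊕ (GG × GG × GG)) (T : Finset FF)
    (R : Subgroup FF) (hR : Good R) :
    ∃ R' : Subgroup FF, Good R' ∧ R ≤ R' ∧ Cen T R R' ∧ Stp τ R R' := by
  rcases τ with g | ⟨x, y, s⟩
  · obtain ⟨R', a, b, c, x, y, d⟩ := h1 R hR g T
    refine ⟨R', a, b, c, ?_, ?_⟩
    · intro g' hg'
      rw [← Sum.inl.inj hg']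
      exact ⟨x, y, d⟩
    · intro _ _ _ h
      exact absurd h (by simp)
  · by_cases hc : al (x * y * x⁻¹ * y⁻¹) ∈ R
    · refine ⟨R, hR, le_rfl, fun t _ ht => ⟨ht, fun h hh => ⟨h, ?_, hh⟩⟩, ?_, ?_⟩
      · rw [inv_mul_cancel]
        exact R.one_mem
      · intro _ h
        exact absurd h (by simp)
      · intro x' y' s' h h'
        have h3 := Sum.inr.inj h
        rw [Prod.mk.injEq, Prod.mk.injEq] at h3
        obtain ⟨rfl, rfl, rfl⟩ := h3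
        exact absurd hc h'
    · obtain ⟨R', a, b, c, v, hv, d⟩ := h2 R hR x y s hc T
      refine ⟨R', a, b, c, ?_, ?_⟩
      · intro _ h
        exact absurd h (by simp)
      · intro x' y' s' h _
        have h3 := Sum.inr.inj h
        rw [Prod.mk.injEq, Prod.mk.injEq] at h3
        obtain ⟨rfl, rfl, rfl⟩ := h3
        exact ⟨v, hv, d⟩

end LimJob

open LimJob

theorem limit (h1 : StepI) (h2 : StepII) (h0 : Good ⊥) : ∃ R : Subgroup FF, Lim R := by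
  classical
  have hcF : Countable FF := by
    have : Function.Surjective (FreeGroup.mk : List (Fin 6 × Bool) → FF) := fun x =>
      ⟨x.toWord, FreeGroup.mk_toWord⟩
    exact this.countable
  have hcG : Countable GG := by
    have : Function.Surjective (FreeGroup.mk : List (Fin 2 × Bool) → GG) := fun x =>
      ⟨x.toWord, FreeGroup.mk_toWord⟩
    exact this.countable
  obtain ⟨e, he⟩ := exists_surjective_nat FF
  obtain ⟨τ, hτ⟩ := exists_surjective_nat (FF ⊕ (GG × GG × GG))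
  set T : ℕ → Finset FF := fun n => (Finset.range n).image e with hT
  choose nx hn1 hn2 hn3 hn4 using fun (n : ℕ) (R : {R : Subgroup FF // Good R}) =>
    exists_next h1 h2 (τ n) (T n) R.1 R.2
  let Rs : ℕ → {R : Subgroup FF // Good R} := fun n =>
    Nat.rec ⟨⊥, h0⟩ (fun n R => ⟨nx n R, hn1 n R⟩) n
  have hs : ∀ n, (Rs (n + 1)).1 = nx n (Rs n) := fun n => rfl
  have hle1 : ∀ n, (Rs n).1 ≤ (Rs (n + 1)).1 := fun n => hs n ▸ hn2 n (Rs n)
  have hmono : Monotone fun n => (Rs n).1 := monotone_nat_of_le_succ hle1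
  have hcen : ∀ n, Cen (T n) (Rs n).1 (Rs (n + 1)).1 := fun n => hs n ▸ hn3 n (Rs n)
  have hstp : ∀ n, Stp (τ n) (Rs n).1 (Rs (n + 1)).1 := fun n => hs n ▸ hn4 n (Rs n)
  have hmem : ∀ x : FF, x ∈ (⨆ n, (Rs n).1 : Subgroup FF) ↔ ∃ n, x ∈ (Rs n).1 := fun x =>
    Subgroup.mem_iSup_of_directed hmono.directed_le
  refine ⟨⨆ n, (Rs n).1, ?_, ?_, ?_, ?_, ?_, ?_⟩
  · refine ⟨fun x hx g => ?_⟩
    obtain ⟨n, hn⟩ := (hmem x).1 hx
    exact (hmem _).2 ⟨n, (good_normal (Rs n).2).conj_mem x hn g⟩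
  · intro g
    obtain ⟨n, hn⟩ := hτ (Sum.inl g)
    obtain ⟨x, y, hxy⟩ := (hstp n).1 g hn
    exact ⟨x, y, (hmem _).2 ⟨n + 1, hxy⟩⟩
  · intro x y s hxy
    obtain ⟨n, hn⟩ := hτ (Sum.inr (x, y, s))
    obtain ⟨v, hv, h3, -⟩ := (hstp n).2 x y s hn fun h => hxy ((hmem _).2 ⟨n, h⟩)
    exact ⟨v, hv, (hmem _).2 ⟨n + 1, h3⟩⟩
  · intro x y s hxy
    obtain ⟨n, hn⟩ := hτ (Sum.inr (x, y, s))
    obtain ⟨v, hv, -, h3⟩ := (hstp n).2 x y s hn fun h =>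
      hxy ((hmem _).2 ⟨n, (good_com (Rs n).2 _).1 h⟩)
    exact ⟨v, hv, (hmem _).2 ⟨n + 1, h3⟩⟩
  · intro x hx
    obtain ⟨n, hn⟩ := (hmem _).1 hx
    exact good_free (Rs n).2 hn
  · intro t ht
    obtain ⟨m, hm⟩ := he t
    have htn : ∀ n, t ∉ (Rs n).1 := fun n h => ht ((hmem _).2 ⟨n, h⟩)
    have htT : ∀ k, t ∈ T (m + 1 + k) := fun k =>
      Finset.mem_image.2 ⟨m, Finset.mem_range.2 (by omega), hm⟩
    obtain ⟨z, hz⟩ := good_cen (Rs (m + 1)).2 (htn (m + 1))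
    have desc : ∀ k : ℕ, ∀ h : FF, h * t * h⁻¹ * t⁻¹ ∈ (Rs (m + 1 + k)).1 →
        ∃ h' : FF, h'⁻¹ * h ∈ (Rs (m + 1 + k)).1 ∧ h' * t * h'⁻¹ * t⁻¹ ∈ (Rs (m + 1)).1 := by
      intro k
      induction k with
      | zero =>
        intro h hh
        refine ⟨h, ?_, hh⟩
        rw [inv_mul_cancel]
        exact Subgroup.one_mem _
      | succ k ih =>
        intro h hh
        obtain ⟨h', a, b⟩ := (hcen (m + 1 + k) t (htT k) (htn _)).2 h hh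
        obtain ⟨h'', c, d⟩ := ih h' b
        refine ⟨h'', ?_, d⟩
        have := (Rs (m + 1 + k + 1)).1.mul_mem (hle1 _ c) a
        rwa [show h''⁻¹ * h' * (h'⁻¹ * h) = h''⁻¹ * h by group] at this
    refine ⟨z, fun h hh => ?_⟩
    obtain ⟨n, hn⟩ := (hmem _).1 hh
    have hn' : h * t * h⁻¹ * t⁻¹ ∈ (Rs (m + 1 + n)).1 := hmono (by omega : n ≤ m + 1 + n) hn
    obtain ⟨h', a, b⟩ := desc n h hn'
    obtain ⟨k, hk⟩ := hz h' b
    refine ⟨k, (hmem _).2 ⟨m + 1 + n, ?_⟩⟩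
    have hk' : h'⁻¹ * z ^ k ∈ (Rs (m + 1 + n)).1 := hmono (by omega : m + 1 ≤ m + 1 + n) hk
    have := (Rs (m + 1 + n)).1.mul_mem ((Rs (m + 1 + n)).1.inv_mem a) hk'
    rwa [show (h'⁻¹ * h)⁻¹ * (h'⁻¹ * z ^ k) = h⁻¹ * z ^ k by group] at this

end Pool.Agent.TH82.FG
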