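import Pool.Agent.TH82.FG.Alg
import Pool.Agent.Helper180.FreeMetric

/-!
# FG-QS (job 2359, helper230 for helper82): the quotient of a state; the base state
-/

set_option autoImplicit false

namespace Pool.Agent.TH82.FG

open Pool.Agent.TH68 Pool.Agent.Helper97.Hyp Pool.Agent.Helper180

theorem St.quot {Q : Type} [Group Q] {ψ : FF →* Q} {P : Subgroup GG} {W : WNorm Q} {δ : ℝ}
    (h : St ψ P W δ) {P' : Subgroup GG} {N : Subgroup Q} [N.Normal] (hP' : P'.Normal)
    (h1 : ∀ x ∈ P', ψ (al x) ∈ N ∧ ψ (be x) ∈ N) (h2 : ∀ w, ψ w ∈ N → ph w ∈ P')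
    (htf : ∀ (u : Q) (k : ℕ), 0 < k → u ^ k ∈ N → u ∈ N)
    (hss : SSm N (ψ.comp al).range (ψ.comp be).range)
    (hfi : ∀ x : GG, ∀ n ∈ N, W.ℓ (ψ (io x)) ≤ W.ℓ (ψ (io x) * n))
    (hnc : (FreeGroup.of 0 * FreeGroup.of 1 * (FreeGroup.of 0)⁻¹ * (FreeGroup.of 1)⁻¹ : GG) ∉ P')
    {W' : WNorm (Q ⧸ N)} (hle : ∀ g : Q, W'.ℓ (g : Q ⧸ N) ≤ W.ℓ g)
    (hex : ∀ g : Q, ∃ n ∈ N, W.ℓ (g * n) = W'.ℓ (g : Q ⧸ N)) {δ' : ℝ} (hδ' : 1 ≤ δ')
    (hyp' : GHyp (Pt W') δ') :
    St ((QuotientGroup.mk' N).comp ψ) P' W' δ' where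
  surj := (QuotientGroup.mk'_surjective N).comp h.surj
  le w := (hle (ψ w)).trans (h.le w)
  ex q := by
    obtain ⟨g, rfl⟩ := QuotientGroup.mk_surjective q
    obtain ⟨n, hn, hn2⟩ := hex g
    obtain ⟨w, hw, hw2⟩ := h.ex (g * n)
    refine ⟨w, ?_, hw2.trans hn2⟩
    show ((ψ w : Q) : Q ⧸ N) = g
    rw [hw, QuotientGroup.mk_mul, (QuotientGroup.eq_one_iff n).2 hn, mul_one]
  norm := hP'
  pa x hx := (QuotientGroup.eq_one_iff _).2 (h1 x hx).1
  pb x hx := (QuotientGroup.eq_one_iff _).2 (h1 x hx).2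
  pp w hw := h2 w ((QuotientGroup.eq_one_iff _).1 hw)
  ss g x y hg := by
    obtain ⟨g, rfl⟩ := QuotientGroup.mk_surjective g
    have e1 : ((g * ψ (be y) * g⁻¹ : Q) : Q ⧸ N) = ((ψ (al x) : Q) : Q ⧸ N) := by
      rw [QuotientGroup.mk_mul, QuotientGroup.mk_mul, QuotientGroup.mk_inv]
      exact hg
    have e2 := QuotientGroup.eq.1 e1.symm
    have e3 := h2 _ (hss _ ⟨x, rfl⟩ _ ⟨y, rfl⟩ g e2)
    rwa [ph_al] at e3
  fi x := by
    refine le_antisymm ((hle (ψ (io x))).trans (h.fi x).le) ?_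
    obtain ⟨n, hn, hn2⟩ := hex (ψ (io x))
    have e1 := hfi x n hn
    rw [h.fi x, hn2] at e1
    exact e1
  hδ := hδ'
  hyp := hyp'
  tf g hg := by
    obtain ⟨u, rfl⟩ := QuotientGroup.mk_surjective g
    obtain ⟨k, hk, e1⟩ := isOfFinOrder_iff_pow_eq_one.1 hg
    rw [← QuotientGroup.mk_pow, QuotientGroup.eq_one_iff] at e1
    exact (QuotientGroup.eq_one_iff _).2 (htf u k hk e1)
  nc := hnc

namespace QsJob

/-- the word norm of the free group -/
def WF : WNorm FF where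
  ℓ := FreeGroup.norm
  one' := FreeGroup.norm_one
  eq_one g h := FreeGroup.norm_eq_zero.1 h
  inv' g := FreeGroup.norm_inv_eq
  mul_le g h := FreeGroup.norm_mul_le g h
  geod g k hk := by
    obtain ⟨z, h1, h2⟩ := FreeMetric.exists_initial g k hk
    refine ⟨z, z⁻¹ * g, by group, h1, ?_⟩
    omega
  fin r := by
    have h1 : {l : List (Fin 6 × Bool) | l.length ≤ r}.Finite := List.finite_length_le _ r
    refine Set.Finite.of_injOn (f := FreeGroup.toWord) (t := {l | l.length ≤ r}) ?_ ?_ h1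
    · intro g hg
      exact hg
    · intro a _ b _ h
      exact FreeGroup.toWord_injective h

theorem four (u v w z : FF) : (u⁻¹ * v).norm + (w⁻¹ * z).norm ≤
    max ((u⁻¹ * w).norm + (v⁻¹ * z).norm) ((u⁻¹ * z).norm + (v⁻¹ * w).norm) := by
  have e : ∀ a b : FF, (u⁻¹ * a)⁻¹ * (u⁻¹ * b) = a⁻¹ * b := by
    intro a b; group
  have h := FreeMetric.gp_hyp (u⁻¹ * w) (u⁻¹ * v) (u⁻¹ * z)
  unfold FreeMetric.gp at h
  rw [e, e, e] at h
  have e2 : (w⁻¹ * v).norm = (v⁻¹ * w).norm := by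
    rw [← FreeGroup.norm_inv_eq]
    congr 1
    group
  rw [e2] at h
  omega

theorem hypF : GHyp (Pt WF) 1 := by
  intro x y z w
  have h := four x.out y.out z.out w.out
  have h' : dist x y + dist z w ≤ max (dist x z + dist y w) (dist x w + dist y z) := by
    rw [dist_def, dist_def, dist_def, dist_def, dist_def, dist_def]
    exact_mod_cast h
  linarith

theorem io_norm (x : GG) : (io x).norm = x.norm := by
  refine le_antisymm (AlJob.norm_io x) ?_
  set ρ : FF →* GG := FreeGroup.lift ![1, 1, 1, 1, FreeGroup.of 0, FreeGroup.of 1] with hρ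
  have h1 : ρ.comp io = MonoidHom.id GG := by
    ext i
    fin_cases i <;> simp [hρ, io]
  have h2 : ρ (io x) = x := DFunLike.congr_fun h1 x
  have h3 := AlJob.norm_hom_le ρ (by intro i; fin_cases i <;> simp [hρ]) (io x)
  rwa [h2] at h3

theorem base_st : St (MonoidHom.id FF) ⊥ WF 1 where
  surj := Function.surjective_id
  le w := le_rfl
  ex q := ⟨q, rfl, rfl⟩
  norm := inferInstance
  pa x hx := by
    rw [Subgroup.mem_bot.1 hx, map_one]
    rfl
  pb x hx := by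
    rw [Subgroup.mem_bot.1 hx, map_one]
    rfl
  pp w hw := by
    have : w = 1 := hw
    rw [this, map_one]
    exact Subgroup.one_mem _
  ss h x y hh := by
    set ρ : FF →* GG := FreeGroup.lift ![FreeGroup.of 0, FreeGroup.of 1, 1, 1, 1, 1] with hρ
    have h1 : ρ.comp al = MonoidHom.id GG := by
      ext i
      fin_cases i <;> simp [hρ, al]
    have h2 : ρ.comp be = 1 := by
      ext i
      fin_cases i <;> simp [hρ, be]
    have h1' : ρ (al x) = x := DFunLike.congr_fun h1 x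
    have h2' : ρ (be y) = 1 := DFunLike.congr_fun h2 y
    have h3 : h * be y * h⁻¹ = al x := hh
    have h4 := congrArg ρ h3
    rw [map_mul, map_mul, map_inv, h1', h2', mul_one, mul_inv_cancel] at h4
    rw [← h4]
    exact Subgroup.one_mem _
  fi x := io_norm x
  hδ := le_rfl
  hyp := hypF
  tf g hg := by
    obtain ⟨n, hn, h⟩ := isOfFinOrder_iff_pow_eq_one.1 hg
    exact (pow_eq_one_iff_left hn.ne').1 h
  nc := by
    rw [Subgroup.mem_bot]
    decide

end QsJob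

theorem base : Good ⊥ :=
  ⟨FF, inferInstance, MonoidHom.id FF, ⊥, QsJob.WF, 1, QsJob.base_st, by
    ext x
    simp [MonoidHom.mem_ker]⟩

end Pool.Agent.TH82.FG
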