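import Pool.Agent.TH82.FG.Sp

set_option autoImplicit false
set_option linter.unusedSectionVars false

/-! Separation of the two factors survives the Tarski type relators. -/

namespace Pool.Agent.TH82.FG

open Pool.Agent.TH68 Pool.Agent.Helper97.Hyp

section ss2

variable {Γ : Type*} [Group Γ] {W : WNorm Γ} {𝒜 : Type*} [MulAction Γ 𝒜]

/-- a shortest conjugator -/
lemma exists_min_triple {N A B : Subgroup Γ} [hN : N.Normal] (W : WNorm Γ) (hbad : ¬ SSm N A B) :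
    ∃ a ∈ A, ∃ b ∈ B, ∃ h : Γ, a⁻¹ * (h * b * h⁻¹) ∈ N ∧ a ∉ N ∧
      ∀ a' ∈ A, ∀ n ∈ N, ∀ b' ∈ B, W.ℓ h ≤ W.ℓ (a' * n * h * b') := by
  classical
  let P : ℕ → Prop := fun m => ∃ a ∈ A, ∃ b ∈ B, ∃ h : Γ, a⁻¹ * (h * b * h⁻¹) ∈ N ∧ a ∉ N ∧
    W.ℓ h = m
  have hP : ∃ m, P m := by
    unfold SSm at hbad
    push Not at hbad
    obtain ⟨a, ha, b, hb, h, h1, h2⟩ := hbad
    exact ⟨_, a, ha, b, hb, h, h1, h2, rfl⟩
  obtain ⟨a, ha, b, hb, h, h1, h2, h3⟩ := Nat.find_spec hP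
  refine ⟨a, ha, b, hb, h, h1, h2, ?_⟩
  intro a' ha' n hn b' hb'
  rw [h3]
  apply Nat.find_min' hP
  refine ⟨a' * a * a'⁻¹, A.mul_mem (A.mul_mem ha' ha) (A.inv_mem ha'), b'⁻¹ * b * b',
    B.mul_mem (B.mul_mem (B.inv_mem hb') hb) hb', a' * n * h * b', ?_, ?_, rfl⟩
  · have e : (a' * a * a'⁻¹)⁻¹ * (a' * n * h * b' * (b'⁻¹ * b * b') * (a' * n * h * b')⁻¹) =
        a' * ((a⁻¹ * n * a) * (a⁻¹ * (h * b * h⁻¹)) * n⁻¹) * a'⁻¹ := by group
    rw [e]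
    apply hN.conj_mem
    apply N.mul_mem (N.mul_mem _ h1) (N.inv_mem hn)
    have := hN.conj_mem n hn a⁻¹
    rwa [inv_inv] at this
  · intro hc
    apply h2
    have := hN.conj_mem _ hc a'⁻¹
    have e : a'⁻¹ * (a' * a * a'⁻¹) * a'⁻¹⁻¹ = a := by group
    rwa [e] at this

/-- a shortest element modulo `N` gives a reduced pair -/
lemma red_of_short {N : Subgroup Γ} [hN : N.Normal] {x : Γ} (h : ∀ n ∈ N, W.ℓ x ≤ W.ℓ (x * n))
    (g : Γ) : Red N (pt W g) (pt W (g * x)) := by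
  intro n hn
  rw [smul_pt, dist_def, dist_def, out_pt, out_pt, out_pt]
  have e1 : g⁻¹ * (g * x) = x := by group
  have e2 : g⁻¹ * (n * (g * x)) = x * ((g * x)⁻¹ * n * (g * x)) := by group
  rw [e1, e2]
  have := hN.conj_mem n hn (g * x)⁻¹
  rw [inv_inv] at this
  exact_mod_cast h _ this

lemma short_inv {N : Subgroup Γ} [hN : N.Normal] {x : Γ} (h : ∀ n ∈ N, W.ℓ x ≤ W.ℓ (x * n)) :
    ∀ n ∈ N, W.ℓ x⁻¹ ≤ W.ℓ (x⁻¹ * n) := by
  intro n hn
  rw [W.inv', ← W.inv' (x⁻¹ * n)]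
  have e : (x⁻¹ * n)⁻¹ = x * (x⁻¹ * n⁻¹ * x) := by group
  rw [e]
  apply h
  have := hN.conj_mem n⁻¹ (N.inv_mem hn) x⁻¹
  rwa [inv_inv] at this

/-- points of an axis close to a pair with small projection are close to the projections -/
lemma near_proj (Y : Sys Γ W 𝒜) {S : 𝒜} {s t q a b : Pt W} {e : ℝ} (hq : q ∈ Y.S S)
    (h1 : exc s t q ≤ e) (ha : IsProj Y.θ (Y.S S) s a) (hb : IsProj Y.θ (Y.S S) t b)
    (hpd : pd (Y.S S) s t ≤ Y.θ) : dist q a ≤ e + 4 * Y.θ ∧ dist q b ≤ e + 4 * Y.θ := by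
  have hδ := Y.hδ
  have hθ := Y.hθ
  have h2 := le_pd_of_proj ha hb
  have h3 := ha.2 q hq
  have h4 := hb.2 q hq
  have h5 := dist_triangle4 s a b t
  rw [dist_comm b t] at h5
  have h6 := dist_nonneg (x := q) (y := a)
  have h7 := dist_nonneg (x := q) (y := b)
  unfold exc at h1
  rw [dist_comm q t] at h1
  rw [dist_comm a q] at h3
  rw [dist_comm b q] at h4
  constructor <;> linarith

/-- a point of an axis near a side is the projection of an end, up to a constant, if the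
projection of the end is close to it; the excess of the projection of an end -/
lemma exc_proj (Y : Sys Γ W 𝒜) {S : 𝒜} {s t q b : Pt W} {e : ℝ} (hq : q ∈ Y.S S)
    (h1 : exc s t q ≤ e) (hb : IsProj Y.θ (Y.S S) t b) : exc s t b ≤ e + Y.θ := by
  have h4 := hb.2 q hq
  have h5 := dist_triangle s q b
  unfold exc at h1 ⊢
  rw [dist_comm b q] at h4
  rw [dist_comm q t] at h1
  rw [dist_comm b t]
  linarith

theorem ss_ii_of (Y : Sys Γ W 𝒜) (R : Spq Y) (hM : 10000 * Y.θ ≤ R.M) {A B : Subgroup Γ}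
    (gA : NGeo W R.N A) (gB : NGeo W R.N B)
    (ss : SSm (⊥ : Subgroup Γ) A B)
    (hsh : ∀ {h x z : Γ}, x ∈ A → z ∈ B → x ∉ R.N → x⁻¹ * (h * z * h⁻¹) ∈ R.N →
      (∀ a ∈ A, ∀ n ∈ R.N, ∀ b ∈ B, W.ℓ h ≤ W.ℓ (a * n * h * b)) → (W.ℓ h : ℝ) ≤ 87 * Y.θ)
    (hov : ∀ S : 𝒜, (∀ (y : Γ), ∀ a ∈ A, ∀ a' ∈ A, pd (Y.S S) (pt W (y * a)) (pt W (y * a')) ≤ Y.θ) ∨
      (∀ (y : Γ), ∀ b ∈ B, ∀ b' ∈ B, pd (Y.S S) (pt W (y * b)) (pt W (y * b')) ≤ Y.θ)) :
    SSm R.N A B := by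
  have hδ := Y.hδ
  have hθ := Y.hθ
  by_contra hbad
  obtain ⟨a, ha, b, hb, h, h1, h2, hmin⟩ := exists_min_triple W hbad
  have hh := hsh ha hb h2 h1 hmin
  obtain ⟨x, hx, hxa, hxs⟩ := gA a ha
  obtain ⟨z, hz, hzb, hzs⟩ := gB b hb
  have hN := R.normal
  obtain ⟨n, hnd⟩ : ∃ n, n = x * h * z⁻¹ * h⁻¹ := ⟨_, rfl⟩
  -- `n` is in `N`
  have hnN : n ∈ R.N := by
    rw [← QuotientGroup.eq_one_iff] at h1 hxa hzb ⊢
    have e1 : (x : Γ ⧸ R.N) = a := by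
      rw [QuotientGroup.mk_mul, QuotientGroup.mk_inv] at hxa
      exact (inv_mul_eq_one.mp hxa).symm
    have e2 : (z : Γ ⧸ R.N) = b := by
      rw [QuotientGroup.mk_mul, QuotientGroup.mk_inv] at hzb
      exact (inv_mul_eq_one.mp hzb).symm
    have e3 : (a : Γ ⧸ R.N) = h * b * (h : Γ ⧸ R.N)⁻¹ := by
      rw [QuotientGroup.mk_mul, QuotientGroup.mk_inv] at h1
      exact inv_mul_eq_one.mp h1
    rw [hnd]
    simp only [QuotientGroup.mk_mul, QuotientGroup.mk_inv, e1, e2, e3]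
    group
  have hxN : x ∉ R.N := by
    intro hc
    apply h2
    have : a = x * (a⁻¹ * x)⁻¹ := by group
    rw [this]
    exact R.N.mul_mem hc (R.N.inv_mem hxa)
  have hn1 : n ≠ 1 := by
    intro hc
    rw [hnd] at hc
    apply hxN
    have h3 := ss x hx z hz h (by
      rw [Subgroup.mem_bot]
      have : x = h * z * h⁻¹ := by
        have e : x * h * z⁻¹ * h⁻¹ = x * (h * z * h⁻¹)⁻¹ := by group
        rw [e] at hc
        exact mul_inv_eq_one.mp hc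
      rw [← this, inv_mul_cancel])
    rw [Subgroup.mem_bot] at h3
    rw [h3]; exact R.N.one_mem
  -- the strip
  have r1 : Red R.N (pt W 1) (pt W x) := by
    have := red_of_short hxs 1
    rwa [one_mul] at this
  have r2 : Red R.N (pt W (x * h)) (pt W (x * h * z⁻¹)) := red_of_short (short_inv hzs) (x * h)
  have d1 : dist (pt W x) (pt W (x * h)) = W.ℓ h := by
    rw [dist_def, out_pt, out_pt, inv_mul_cancel_left]
  have d2 : dist (pt W (x * h * z⁻¹)) (n • pt W 1) = W.ℓ h := by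
    rw [smul_base, dist_def, out_pt, out_pt, hnd]
    have : (x * h * z⁻¹)⁻¹ * (x * h * z⁻¹ * h⁻¹) = h⁻¹ := by group
    rw [this, W.inv']
  obtain ⟨S, ρ, hρ, hρ1, q₁, hq₁, q₂, hq₂, hd, hfar, hx1, hx2⟩ :=
    strip Y R (by linarith) hnN hn1 r1 r2 (by rw [d1]; linarith) (by rw [d2]; linarith)
  have hρN : ρ ∈ R.N := R.G_le S hρ
  have hx2' : exc (pt W (x * h)) (pt W (x * h * z⁻¹)) q₂ ≤ 232 * Y.θ := by
    rcases hx2 with h3 | h3
    · linarith
    · have := exc_le_two' (pt W (x * h)) (pt W (x * h * z⁻¹)) q₂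
      linarith
  obtain ⟨π, hπ⟩ := Y.proj S (pt W (x * h))
  obtain ⟨π₁, hπ₁⟩ := Y.proj S (pt W x)
  have e1 := le_pd_of_proj hπ₁ hπ
  have e2 := pd_le_dist (Y.Sne S) (pt W x) (pt W (x * h))
  rw [d1] at e2
  rcases hov S with hov | hov
  · -- the first side has a small projection
    obtain ⟨π₀, hπ₀⟩ := Y.proj S (pt W 1)
    have h3 : pd (Y.S S) (pt W 1) (pt W x) ≤ Y.θ := by
      have := hov 1 1 A.one_mem x hx
      rwa [one_mul, one_mul] at this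
    have h4 := (near_proj Y hq₁ hx1 hπ₀ hπ₁ h3).2
    have h5 : exc (pt W (x * h)) (pt W (x * h * z⁻¹)) π ≤ 233 * Y.θ := by
      rw [exc_comm] at hx2'
      have := exc_proj Y hq₂ hx2' hπ
      rw [exc_comm]
      linarith
    have h6 := exc_move (pt W (x * h)) (pt W (x * h * z⁻¹)) π q₁
    have h7 := dist_triangle q₁ π₁ π
    rw [dist_comm q₁ π] at h7
    have h8 : exc (pt W (x * h)) (pt W (x * h * z⁻¹)) q₁ ≤ 450 * Y.θ := by linarith
    have h9 := r2.bound Y.hyp hρN h8 (hx2'.trans (by linarith)) hd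
    linarith
  · -- the second side has a small projection
    obtain ⟨π', hπ'⟩ := Y.proj S (pt W (x * h * z⁻¹))
    have h3 : pd (Y.S S) (pt W (x * h)) (pt W (x * h * z⁻¹)) ≤ Y.θ := by
      have := hov (x * h) 1 B.one_mem z⁻¹ (B.inv_mem hz)
      rwa [mul_one] at this
    have h4 := (near_proj Y hq₂ hx2' hπ hπ' h3).1
    have h5 := exc_proj Y hq₁ hx1 hπ₁
    have h6 := exc_move (pt W 1) (pt W x) π₁ q₂
    have h7 := dist_triangle π₁ π q₂
    rw [dist_comm π q₂] at h7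
    have h8 : exc (pt W 1) (pt W x) q₂ ≤ 700 * Y.θ := by linarith
    have h9 := r1.bound Y.hyp hρN (hx1.trans (by linarith : 16 * Y.θ ≤ 700 * Y.θ)) h8 hd
    linarith

end ss2

end Pool.Agent.TH82.FG
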