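import Pool.Agent.TH82.FG.Sh
import Pool.Agent.TH82.FG.Quot
import Pool.Agent.TH82.FG.Limit

set_option autoImplicit false
set_option linter.unusedSectionVars false

/-! The common part of the two steps. -/

namespace Pool.Agent.TH82.FG

open Pool.Agent.TH68 Pool.Agent.Helper97.Hyp

section step

/-- images of normal closures under the retraction -/
lemma ph_of_closure {Q : Type} [Group Q] {ψ : FF →* Q} {P P' : Subgroup GG} {W : WNorm Q} {δ : ℝ}
    (h : St ψ P W δ) [hP' : P'.Normal] (hPP' : P ≤ P') {s : Set FF} (hs : ∀ w ∈ s, ph w ∈ P')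
    {w : FF} (hw : ψ w ∈ Subgroup.normalClosure (ψ '' s)) : ph w ∈ P' := by
  rw [← Subgroup.map_normalClosure s ψ h.surj] at hw
  obtain ⟨w', hw', he⟩ := hw
  have h1 : Subgroup.normalClosure s ≤ P'.comap ph := by
    have : (P'.comap ph).Normal := hP'.comap ph
    apply Subgroup.normalClosure_le_normal
    intro v hv
    exact hs v hv
  have h2 : ph w' ∈ P' := h1 hw'
  have h3 : ph (w * w'⁻¹) ∈ P := h.pp _ (by rw [map_mul, map_inv, he, mul_inv_cancel])
  have h4 := P'.mul_mem (hPP' h3) h2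
  rwa [map_mul, map_inv, inv_mul_cancel_right] at h4

/-- the quotient by the relators of a step -/
theorem step_core {Q : Type} [Group Q] {ψ : FF →* Q} {P : Subgroup GG} {W : WNorm Q} {δ : ℝ}
    (h : St ψ P W δ) (T : Finset FF) {𝒜 : Type} [MulAction Q 𝒜] (Z : Sys Q W 𝒜) (R : Spq Z)
    (hM : 10000 * Z.θ ≤ R.M) (h4 : 4 ≤ Z.θ) (hT : ∀ t ∈ T, (W.ℓ (ψ t) : ℝ) ≤ Z.θ)
    {P' : Subgroup GG} (hP' : P'.Normal)
    (h1 : ∀ x ∈ P', ψ (al x) ∈ R.N ∧ ψ (be x) ∈ R.N) (h2 : ∀ w, ψ w ∈ R.N → ph w ∈ P')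
    (hss : SSm R.N (ψ.comp al).range (ψ.comp be).range)
    (hF : ∀ (S : 𝒜) (y : Q) (f f' : GG),
      pd (Z.S S) (pt W (y * ψ (io f))) (pt W (y * ψ (io f'))) ≤ Z.θ) :
    Good ((QuotientGroup.mk' R.N).comp ψ).ker ∧
      Cen T ψ.ker ((QuotientGroup.mk' R.N).comp ψ).ker := by
  have hδ := Z.hδ
  have hθ := Z.hθ
  have hN := R.normal
  have hker : ∀ w : FF, w ∈ ((QuotientGroup.mk' R.N).comp ψ).ker ↔ ψ w ∈ R.N := by
    intro w
    rw [MonoidHom.mem_ker, MonoidHom.comp_apply, QuotientGroup.mk'_apply,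
      QuotientGroup.eq_one_iff]
  have htf : ∀ (u : Q) (k : ℕ), 0 < k → u ^ k ∈ R.N → u ∈ R.N := fun u k hk hu =>
    tfree Z R (by linarith) h.tf u k hk hu
  -- short elements are not killed
  have hshort : ∀ g : Q, g ≠ 1 → (W.ℓ g : ℝ) ≤ Z.θ → g ∉ R.N := by
    intro g hg hl hgN
    have h3 := far_of_mem Z R hgN hg (pt W 1)
    rw [smul_base, dist_def, out_pt, out_pt, inv_one, one_mul] at h3
    linarith
  obtain ⟨W', hW1, hW2, δ', hδ'⟩ := quot Z R (by linarith)
  constructor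
  · refine ⟨Q ⧸ R.N, inferInstance, (QuotientGroup.mk' R.N).comp ψ, P', W', max δ' 1, ?_, rfl⟩
    refine h.quot hP' h1 h2 htf hss ?_ ?_ hW1 hW2 (le_max_right _ _)
      (GHyp.mono hδ' (le_max_left _ _))
    · intro x n hn
      have h3 : ∀ A, pd (Z.S A) (pt W 1) (pt W (ψ (io x))) ≤ R.M / 4 := by
        intro A
        have := hF A 1 1 x
        rw [map_one, map_one, one_mul, one_mul] at this
        linarith
      have h5 := short_of_pd Z R (by linarith) h3 (ψ (io x) * n * (ψ (io x))⁻¹)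
        (hN.conj_mem n hn _)
      rw [smul_pt, dist_def, dist_def, out_pt, out_pt, out_pt, inv_one, one_mul, one_mul,
        inv_mul_cancel_right] at h5
      exact_mod_cast h5
    · intro hc
      obtain ⟨c, hcd⟩ : ∃ c : GG, c = FreeGroup.of 0 * FreeGroup.of 1 * (FreeGroup.of 0)⁻¹ *
        (FreeGroup.of 1)⁻¹ := ⟨_, rfl⟩
      rw [← hcd] at hc
      have hcP : c ∉ P := by rw [hcd]; exact h.nc
      refine hshort (ψ (al c)) ?_ ?_ (h1 c hc).1
      · intro h3
        apply hcP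
        have := h.pp _ h3
        rwa [ph_al] at this
      · have h3 : W.ℓ (ψ (al c)) ≤ 4 := by
          refine (h.le _).trans ((AlJob.norm_al c).trans ?_)
          rw [hcd]
          refine (FreeGroup.norm_mul_le _ _).trans ?_
          rw [FreeGroup.norm_inv_eq, FreeGroup.norm_of]
          have e1 : (FreeGroup.of 0 * FreeGroup.of 1 * (FreeGroup.of 0)⁻¹ : GG).norm ≤ 3 := by
            refine (FreeGroup.norm_mul_le _ _).trans ?_
            rw [FreeGroup.norm_inv_eq, FreeGroup.norm_of]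
            have e2 : (FreeGroup.of 0 * FreeGroup.of 1 : GG).norm ≤ 2 := by
              refine (FreeGroup.norm_mul_le _ _).trans ?_
              rw [FreeGroup.norm_of, FreeGroup.norm_of]
            omega
          omega
        have : (W.ℓ (ψ (al c)) : ℝ) ≤ 4 := by exact_mod_cast h3
        linarith
  · intro t ht htR
    have ht1 : ψ t ≠ 1 := htR
    have htN : ψ t ∉ R.N := hshort _ ht1 (hT t ht)
    refine ⟨fun hc => htN ((hker t).1 hc), ?_⟩
    intro g hg
    rw [hker, map_mul, map_mul, map_mul, map_inv, map_inv] at hg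
    obtain ⟨n, hn, hn'⟩ := hW2 (ψ g)
    obtain ⟨g₀, hg₀⟩ : ∃ g₀, g₀ = ψ g * n := ⟨_, rfl⟩
    rw [← hg₀] at hn'
    have hmin : ∀ n' ∈ R.N, W.ℓ g₀ ≤ W.ℓ (g₀ * n') := by
      intro n' hn₂
      rw [hn']
      have h3 := hW1 (g₀ * n')
      have h5 : ((g₀ * n' : Q) : Q ⧸ R.N) = (ψ g : Q ⧸ R.N) := by
        rw [hg₀, eq_comm, QuotientGroup.eq]
        have : (ψ g)⁻¹ * (ψ g * n * n') = n * n' := by group
        rw [this]
        exact R.N.mul_mem hn hn₂
      rwa [h5] at h3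
    obtain ⟨g', hg'⟩ := h.surj g₀
    refine ⟨g', ?_, ?_⟩
    · rw [hker, map_mul, map_inv, hg', hg₀]
      have : (ψ g * n)⁻¹ * ψ g = n⁻¹ := by group
      rw [this]; exact R.N.inv_mem hn
    rw [MonoidHom.mem_ker, map_mul, map_mul, map_mul, map_inv, map_inv, hg']
    by_contra hne
    have hyy : (g₀ * ψ t * g₀⁻¹) * (ψ t)⁻¹ ∈ R.N := by
      rw [← QuotientGroup.eq_one_iff] at hg hn ⊢
      simp only [hg₀, QuotientGroup.mk_mul, QuotientGroup.mk_inv, hn, mul_one] at hg ⊢
      exact hg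
    have h3 := cong Z R Z.θ (by linarith) (ψ t) (g₀ * ψ t * g₀⁻¹) (pt W 1) (pt W g₀) hyy
      (fun hc => hne (by rw [← hc, mul_inv_cancel]))
      (by
        rw [smul_base, dist_def, out_pt, out_pt, inv_one, one_mul]
        exact hT t ht)
      (by
        rw [smul_pt, dist_def, out_pt, out_pt]
        have : g₀⁻¹ * (g₀ * ψ t * g₀⁻¹ * g₀) = ψ t := by group
        rw [this]
        exact hT t ht)
      (by
        have := red_of_short hmin 1
        rwa [one_mul] at this)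
    apply htN
    have h5 := hN.conj_mem _ h3 g₀⁻¹
    have : g₀⁻¹ * (g₀ * ψ t * g₀⁻¹) * g₀⁻¹⁻¹ = ψ t := by group
    rwa [this] at h5

end step

end Pool.Agent.TH82.FG
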